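import Pool.Agent.Lib.MP_305fdd_al.Fr.Z.Main

/-!
# Existence of rational approximations; infinite orbits give short translations ((1.2))
-/

set_option autoImplicit false
set_option linter.unusedSectionVars false
set_option linter.unusedVariables false
set_option linter.unnecessarySeqFocus false

open Finset

namespace Pool.Agent.FrZ

/-- There is an additive map to `ℚ` which is positive on finitely many positive reals and even
integral on finitely many reals. -/
theorem exists_L (F E : Finset ℝ) (hF : ∀ f ∈ F, 0 < f) :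
    ∃ L : ℝ →+ ℚ, (∀ f ∈ F, 0 < L f) ∧ ∀ x ∈ E, x ∈ Lam L := by
  classical
  set U : Submodule ℚ ℝ := Submodule.span ℚ ((F ∪ E : Finset ℝ) : Set ℝ) with hU
  haveI : FiniteDimensional ℚ U := FiniteDimensional.span_finset ℚ (F ∪ E)
  set b := Module.finBasis ℚ U with hb
  set n := Module.finrank ℚ U with hn
  have hmem : ∀ x ∈ F ∪ E, x ∈ U := fun x hx => Submodule.subset_span hx
  have hexp : ∀ x : U, (x : ℝ) = ∑ i, ((b.repr x i : ℚ) : ℝ) * ((b i : U) : ℝ) := by
    intro x
    conv_lhs => rw [← b.sum_repr x]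
    rw [Submodule.coe_sum]
    refine sum_congr rfl fun i _ => ?_
    rw [Submodule.coe_smul, Rat.smul_def]
  -- a bound for the coefficients
  obtain ⟨δ, hδ0, hδ⟩ : ∃ δ : ℝ, 0 < δ ∧ ∀ f (hf : f ∈ F),
      (∑ i, |((b.repr ⟨f, hmem f (mem_union_left _ hf)⟩ i : ℚ) : ℝ)|) * δ < f := by
    have key : ∀ G : Finset ℝ, ∀ hG : G ⊆ F, ∃ δ : ℝ, 0 < δ ∧ ∀ f (hf : f ∈ G),
        (∑ i, |((b.repr ⟨f, hmem f (mem_union_left _ (hG hf))⟩ i : ℚ) : ℝ)|) * δ < f := by
      intro G
      induction G using Finset.induction_on with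
      | empty => exact fun _ => ⟨1, one_pos, fun f hf => absurd hf (notMem_empty f)⟩
      | insert a G ha ih =>
        intro hG
        obtain ⟨δ, h1, h2⟩ := ih (fun x hx => hG (mem_insert_of_mem hx))
        set S := ∑ i, |((b.repr ⟨a, hmem a (mem_union_left _ (hG (mem_insert_self a G)))⟩ i : ℚ) : ℝ)|
          with hS
        have hS0 : 0 ≤ S := sum_nonneg fun _ _ => abs_nonneg _
        have ha0 := hF a (hG (mem_insert_self a G))
        refine ⟨min δ (a / (S + 1)), lt_min h1 (by positivity), ?_⟩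
        intro f hf
        rcases mem_insert.1 hf with rfl | hf'
        · have h3 : min δ (f / (S + 1)) ≤ f / (S + 1) := min_le_right _ _
          have h4 : S * (f / (S + 1)) < f := by
            rw [← mul_div_assoc, div_lt_iff₀ (by linarith)]
            nlinarith
          calc _ ≤ S * (f / (S + 1)) := mul_le_mul_of_nonneg_left h3 hS0
            _ < f := h4
        · refine lt_of_le_of_lt ?_ (h2 f hf')
          exact mul_le_mul_of_nonneg_left (min_le_left _ _) (sum_nonneg fun _ _ => abs_nonneg _)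
    exact key F subset_rfl
  -- rational approximations of the basis
  have hr : ∀ i, ∃ r : ℚ, |(r : ℝ) - ((b i : U) : ℝ)| ≤ δ := by
    intro i
    obtain ⟨r, h1, h2⟩ := exists_rat_btwn (lt_add_of_pos_right ((b i : U) : ℝ) hδ0)
    exact ⟨r, by rw [abs_le]; constructor <;> linarith⟩
  choose r hr using hr
  set g0 : U →ₗ[ℚ] ℚ := b.constr ℚ r with hg0
  obtain ⟨g, hg⟩ := LinearMap.exists_extend (p := U) g0
  have hgU : ∀ x : U, g (x : ℝ) = ∑ i, b.repr x i * r i := by
    intro x
    have h1 : g (x : ℝ) = g0 x := by rw [← hg]; rfl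
    rw [h1, hg0, Module.Basis.constr_apply_fintype]
    refine sum_congr rfl fun i _ => ?_
    rw [Module.Basis.equivFun_apply, smul_eq_mul]
  have hgF : ∀ f ∈ F, 0 < g f := by
    intro f hf
    set x : U := ⟨f, hmem f (mem_union_left _ hf)⟩ with hx
    have h1 := hgU x
    have h2 := hexp x
    have h3 := hδ f hf
    have h4 : |((∑ i, b.repr x i * r i : ℚ) : ℝ) - f| ≤
        (∑ i, |((b.repr x i : ℚ) : ℝ)|) * δ := by
      have h5 : ((∑ i, b.repr x i * r i : ℚ) : ℝ) - f
          = ∑ i, ((b.repr x i : ℚ) : ℝ) * ((r i : ℝ) - ((b i : U) : ℝ)) := by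
        have h6 : f = ∑ i, ((b.repr x i : ℚ) : ℝ) * ((b i : U) : ℝ) := h2
        conv_lhs => rw [h6]
        push_cast
        rw [← sum_sub_distrib]
        refine sum_congr rfl fun i _ => ?_
        ring
      rw [h5, sum_mul]
      refine (abs_sum_le_sum_abs _ _).trans (sum_le_sum fun i _ => ?_)
      rw [abs_mul]
      exact mul_le_mul_of_nonneg_left (hr i) (abs_nonneg _)
    have h7 : (0 : ℝ) < ((∑ i, b.repr x i * r i : ℚ) : ℝ) := by
      have := abs_le.1 h4
      linarith [this.1]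
    have h8 : g f = ∑ i, b.repr x i * r i := h1
    rw [h8]
    exact_mod_cast h7
  -- clear denominators
  set N : ℕ := ∏ x ∈ E, (g x).den with hN
  have hN0 : 0 < N := prod_pos fun x _ => (g x).pos
  set L : ℝ →+ ℚ := (2 * N) • g.toAddMonoidHom with hL
  have hLx : ∀ x, L x = 2 * N * g x := by
    intro x
    rw [hL, AddMonoidHom.smul_apply]
    simp [nsmul_eq_mul]
  refine ⟨L, fun f hf => ?_, fun x hx => ?_⟩
  · rw [hLx]
    have h1 : (0 : ℚ) < N := by exact_mod_cast hN0
    have := hgF f hf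
    positivity
  · obtain ⟨k, hk⟩ : (g x).den ∣ N := dvd_prod_of_mem (fun x => (g x).den) hx
    refine ⟨k * (g x).num, ?_⟩
    rw [hLx, hk]
    have h1 : g x * (g x).den = (g x).num := Rat.mul_den_eq_num (g x)
    push_cast
    rw [← h1]
    ring

/-- the integral system belonging to `L` -/
theorem exists_Tp {J I : Type} (L : ℝ →+ ℚ) (X : Sys J I ℝ) (ha : ∀ j, X.a j ∈ Lam L)
    (hb : ∀ j, X.b j ∈ Lam L) (hl : ∀ j, X.l j ∈ Lam L) (hlo : ∀ i, X.lo i ∈ Lam L)
    (hhi : ∀ i, X.hi i ∈ Lam L) : Tp L X (X.map (Lz L)) :=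
  { a := fun j => Lz_cast (ha j), b := fun j => Lz_cast (hb j), l := fun j => Lz_cast (hl j),
    lo := fun i => Lz_cast (hlo i), hi := fun i => Lz_cast (hhi i), fl := rfl, ca := rfl,
    cb := rfl, ea := fun j => Lz_even (ha j), eb := fun j => Lz_even (hb j),
    el := fun j => Lz_even (hl j), elo := fun i => Lz_even (hlo i),
    ehi := fun i => Lz_even (hhi i) }

/-- (1.2) If an eroded system has an infinite orbit then it contains arbitrarily short nontrivial
translations. -/
theorem short_translation {J I : Type} [Finite J] (X : Sys J I ℝ) {ε : ℝ} {x : ℝ} (hε : 0 < ε)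
    (hinf : ¬ {y | ∃ γ, X.Valid (X.OK ε) γ (x, true) ∧ (X.run γ (x, true)).1 = y}.Finite)
    {δ : ℝ} (hδ : 0 < δ) :
    ∃ (y : ℝ) (γ : List (J × Bool)), X.Valid (X.OK ε) γ (y, true) ∧
      (X.run γ (y, true)).2 = true ∧ (X.run γ (y, true)).1 ≠ y ∧
      |(X.run γ (y, true)).1 - y| < δ := by
  classical
  haveI := Fintype.ofFinite J
  set O : Set ℝ := {y | ∃ γ, X.Valid (X.OK ε) γ (x, true) ∧ (X.run γ (x, true)).1 = y} with hO
  -- the orbit is bounded
  obtain ⟨M, hM⟩ : ∃ M : ℝ, ∀ y ∈ O, |y| ≤ M := by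
    set M : ℝ := |x| + ∑ σ : J × Bool, (|X.dl σ| + |X.l σ.1|) with hMdef
    have hMσ : ∀ σ, |X.dl σ| + |X.l σ.1| ≤ ∑ σ : J × Bool, (|X.dl σ| + |X.l σ.1|) := fun σ =>
      single_le_sum (f := fun σ : J × Bool => |X.dl σ| + |X.l σ.1|)
        (fun σ _ => by positivity) (mem_univ σ)
    have hs0 : 0 ≤ ∑ σ : J × Bool, (|X.dl σ| + |X.l σ.1|) := sum_nonneg fun _ _ => by positivity
    refine ⟨M, ?_⟩
    rintro y ⟨γ, hγ, rfl⟩
    have key : ∀ (γ : List (J × Bool)) (s : ℝ × Bool), |s.1| ≤ M → X.Valid (X.OK ε) γ s →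
        |(X.run γ s).1| ≤ M := by
      intro γ
      induction γ with
      | nil => exact fun s h _ => h
      | cons σ γ ih =>
        intro s hs hv
        refine ih _ ?_ hv.2
        have h1 : X.OK ε (inv σ) (X.mv σ s) := (X.OK_mv ε σ s).2 hv.1
        have h2 : X.OK ε (inv σ) ((X.mv σ s).1, (X.mv σ s).2) := h1
        rw [X.OK_iff] at h2
        have h3 := hMσ (inv σ)
        rw [abs_le]
        have h4 := neg_abs_le (X.dl (inv σ))
        have h5 := le_abs_self (X.dl (inv σ))
        have h6 := le_abs_self (X.l (inv σ).1)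
        have h7 := abs_nonneg (X.l (inv σ).1)
        have h8 := abs_nonneg x
        constructor <;> linarith [h2.1, h2.2]
    refine key γ _ ?_ hγ
    simp only [hMdef]
    linarith
  have hch : ∀ y : ℝ, ∃ γ : List (J × Bool), y ∈ O →
      X.Valid (X.OK ε) γ (x, true) ∧ (X.run γ (x, true)).1 = y := by
    intro y
    by_cases hy : y ∈ O
    · obtain ⟨γ, h⟩ := hy
      exact ⟨γ, fun _ => h⟩
    · exact ⟨[], fun h => absurd h hy⟩
  choose g hg using hch
  have hOinf : O.Infinite := hinf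
  obtain ⟨y, hy, y', hy', hne, heq⟩ := Set.Infinite.exists_ne_map_eq_of_mapsTo
    (t := (Set.Icc (⌊-M / δ⌋) (⌊M / δ⌋)) ×ˢ (Set.univ : Set Bool))
    (f := fun y : ℝ => ((⌊y / δ⌋ : ℤ), (X.run (g y) (x, true)).2)) hOinf (by
      intro y hy
      have h1 := abs_le.1 (hM y hy)
      refine ⟨⟨?_, ?_⟩, Set.mem_univ _⟩
      · exact Int.floor_le_floor (div_le_div_of_nonneg_right h1.1 hδ.le)
      · exact Int.floor_le_floor (div_le_div_of_nonneg_right h1.2 hδ.le))
    ((Set.finite_Icc _ _).prod Set.finite_univ)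
  simp only [Prod.mk.injEq] at heq
  obtain ⟨h1, h2⟩ := hg y hy
  obtain ⟨h1', h2'⟩ := hg y' hy'
  set d := (X.run (g y) (x, true)).2 with hd
  have e1 : X.run (g y) (x, true) = (y, d) := Prod.ext h2 hd.symm
  have e2 : X.run (g y') (x, true) = (y', d) := Prod.ext h2' heq.2.symm
  have hv : X.Valid (X.OK ε) (rev (g y) ++ g y') (y, d) := by
    rw [X.valid_append]
    have h3 := X.valid_rev (fun σ s hs => (X.OK_mv ε σ s).2 hs) _ _ h1
    have h4 := X.run_rev (g y) (x, true)
    rw [e1] at h3 h4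
    rw [h4]
    exact ⟨h3, h1'⟩
  have hr : X.run (rev (g y) ++ g y') (y, d) = (y', d) := by
    rw [X.run_append]
    have h4 := X.run_rev (g y) (x, true)
    rw [e1] at h4
    rw [h4, e2]
  have hr' : X.run (rev (g y) ++ g y') (y, true) = (y', true) := by
    apply Prod.ext
    · rw [X.run_fst _ _ true d, hr]
    · cases hdd : d
      · rw [hdd] at hr
        have := X.run_not (rev (g y) ++ g y') y false
        rw [hr] at this
        exact this
      · rw [hdd] at hr
        rw [hr]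
  refine ⟨y, rev (g y) ++ g y', X.valid_OK_dir _ _ _ _ _ hv, ?_, ?_, ?_⟩
  · rw [hr']
  · rw [hr']; exact hne.symm
  · rw [hr']
    have h5 : ⌊y' / δ⌋ = ⌊y / δ⌋ := heq.1.symm
    have h6 := Int.abs_sub_lt_one_of_floor_eq_floor h5
    rw [← sub_div, abs_div, abs_of_pos hδ, div_lt_one hδ] at h6
    exact h6

end Pool.Agent.FrZ
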