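import Pool.Agent.Lib.MP_305fdd_al.Fr.Z.Count

/-!
# The integral system: replacement of steps, cyclic edge groups
-/

set_option autoImplicit false
set_option linter.unusedSectionVars false
set_option linter.unusedVariables false
set_option linter.unnecessarySeqFocus false

open Finset

namespace Pool.Agent.FrZ

namespace AD

section
variable {J I R : Type} [CommRing R] [LinearOrder R] [IsStrictOrderedRing R]
variable {X : Sys J I R} {t : R} {N : Set (FreeGroup J)} {ι : Type} (A : AD X t N ι)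

open Classical in
/-- the word from the projection of a point to the point -/
noncomputable def wd (x : R) : List (J × Bool) :=
  if h : ∃ α, A.p α < x ∧ x < A.q α then A.w h.choose else []

theorem wd_eq {α : ι} {x : R} (h1 : A.p α < x) (h2 : x < A.q α) : A.wd x = A.w α := by
  have h : ∃ α, A.p α < x ∧ x < A.q α := ⟨α, h1, h2⟩
  unfold wd
  rw [dif_pos h, A.uniq _ α x h.choose_spec.1 h.choose_spec.2 h1 h2]

end
end AD

namespace Sys

variable {J I : Type}

theorem zs_state {R : Type} [CommRing R] [LinearOrder R] (X : Sys J I R) (j : J) (s : R × Bool) :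
    X.zs (X.zip (j, true) s.2) (X.fw (j, true) s) = s := by
  rcases s with ⟨x, d⟩
  cases d <;> simp [zs, zip, fw, dl]

variable (X : Sys J I ℤ)

theorem odd_mvx (hdl : ∀ σ, Even (X.dl σ)) (hle : ∀ j, Even (X.l j)) (σ : J × Bool) {x : ℤ}
    (hx : Odd x) : Odd (X.mvx σ x) := by
  unfold mvx
  split_ifs
  · exact (hdl _).add_odd (((hdl _).add (hle _)).sub_odd hx)
  · exact (hdl _).add_odd (hx.sub_even (hdl _))

theorem odd_fw (hdl : ∀ σ, Even (X.dl σ)) (hle : ∀ j, Even (X.l j)) (σ : J × Bool)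
    (s : ℤ × Bool) (hx : Odd s.1) : Odd (X.fw σ s) := by
  unfold fw
  split_ifs
  · exact ((hdl _).add (hle _)).sub_odd hx
  · exact hx.sub_even (hdl _)

theorem card_odd_Ioo {a b : ℤ} (ha : Even a) (hb : Even b) (h : a ≤ b) :
    2 * (((Finset.Ioo a b).filter (fun x => Odd x)).card : ℤ) = b - a := by
  obtain ⟨m, rfl⟩ := ha
  obtain ⟨n, rfl⟩ := hb
  have : (Finset.Ioo (m + m) (n + n)).filter (fun x => Odd x)
      = (Finset.Ico m n).image (fun k => 2 * k + 1) := by
    ext x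
    simp only [mem_filter, mem_Ioo, mem_image, mem_Ico]
    constructor
    · rintro ⟨⟨h1, h2⟩, k, rfl⟩
      exact ⟨k, ⟨by omega, by omega⟩, rfl⟩
    · rintro ⟨k, ⟨h1, h2⟩, rfl⟩
      exact ⟨⟨by omega, by omega⟩, k, rfl⟩
  rw [this, card_image_of_injective _ (fun a b h => by simpa using h), Int.card_Ico]
  have h' : m ≤ n := by omega
  rw [Int.toNat_of_nonneg (by omega)]
  ring

theorem int_cyc [Fintype J] {G : Type} [Group G] (θ : FreeGroup J →* G)
    (rk : J × Bool → ℕ) {t0 : ℤ} (ht0 : 0 < t0) (ht0e : Even t0) (hl : ∀ j, 2 * t0 < X.l j)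
    (hdl : ∀ σ, Even (X.dl σ)) (hle : ∀ j, Even (X.l j))
    (hdom : ∀ σ, X.lo (X.dc σ) ≤ X.dl σ ∧ X.dl σ + X.l σ.1 ≤ X.hi (X.dc σ))
    {N : Set (FreeGroup J)} {ι : Type} [Fintype ι] [DecidableEq ι] [Nonempty ι] (A : AD X t0 N ι)
    (hpe : ∀ α, Even (A.p α) ∧ Even (A.q α))
    (hN : ∀ α β σ, (lab (A.w β))⁻¹ * sg σ * lab (A.w α) ∈ N →
      θ ((lab (A.w β))⁻¹ * sg σ * lab (A.w α)) = 1)
    (EZ : Finset (J × Bool))
    (hred : ∀ z, z ∉ EZ → ∃ γ, X.Valid (X.Allowed rk z t0) γ (X.zs z t0) ∧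
      X.run γ (X.zs z t0) = X.mv (z.1, true) (X.zs z t0) ∧ θ (lab γ) = θ (sg (z.1, true)))
    (hcount : EZ.card * t0 ≤ ∑ α ∈ univ.filter (fun α => A.rep α = α), (A.q α - A.p α)) :
    ∃ e α, A.rep α = α ∧ Odd e ∧ A.p α < e ∧ e < A.q α ∧ ∃ c : G, ∀ γ d,
      X.Valid (X.OK 0) γ (e, d) → (X.run γ (e, d)).1 = e → θ (lab γ) ∈ Subgroup.zpowers c := by
  classical
  -- points of a domain are in an arc
  have hin : ∀ σ (s : ℤ × Bool), Odd s.1 → X.OK 0 σ s → ∃ α, A.p α < s.1 ∧ s.1 < A.q α := by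
    rintro σ ⟨x, d⟩ hx hok
    rw [X.OK_iff] at hok
    simp only at hx ⊢
    have h1 : x ≠ X.dl σ := fun h => (Int.not_even_iff_odd.2 hx) (h ▸ hdl σ)
    have h2 : x ≠ X.dl σ + X.l σ.1 := fun h =>
      (Int.not_even_iff_odd.2 hx) (h ▸ (hdl σ).add (hle _))
    obtain ⟨k1, k2⟩ := hdom σ
    refine A.cover x (X.dc σ) (by omega) (by omega) fun α => ⟨?_, ?_⟩
    · intro h
      exact (Int.not_even_iff_odd.2 hx) (h ▸ (hpe α).1)
    · intro h
      exact (Int.not_even_iff_odd.2 hx) (h ▸ (hpe α).2)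
  set Lx : ℤ → G := fun x => θ (lab (A.wd x)) with hLx
  set EE : Finset ((J × Bool) × ℤ) := EZ ×ˢ ((Finset.Ioo 0 t0).filter (fun x => Odd x)) with hEE
  set u : (J × Bool) × ℤ → ℤ := fun e => A.pi (X.zs e.1 e.2).1 with hu
  set v : (J × Bool) × ℤ → ℤ := fun e => A.pi (X.mvx (e.1.1, true) (X.zs e.1 e.2).1) with hv
  set ℓ : (J × Bool) × ℤ → G := fun e =>
    (Lx (X.mvx (e.1.1, true) (X.zs e.1 e.2).1))⁻¹ * θ (sg (e.1.1, true)) * Lx (X.zs e.1 e.2).1
    with hℓ
  set RR : ℤ → ℤ → G → Prop := Rel (EE : Set ((J × Bool) × ℤ)) u v ℓ with hRR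
  -- the goal for one step
  set SG : ℤ → J × Bool → Prop := fun x σ =>
    RR (A.pi x) (A.pi (X.mvx σ x)) ((Lx (X.mvx σ x))⁻¹ * θ (sg σ) * Lx x) with hSG
  have hsymm : ∀ x σ, SG (X.mvx σ x) (inv σ) → SG x σ := by
    intro x σ h
    have h1 := Rel.symm h
    rw [X.mvx_inv] at h1
    have e : ((Lx x)⁻¹ * θ (sg (inv σ)) * Lx (X.mvx σ x))⁻¹
        = (Lx (X.mvx σ x))⁻¹ * θ (sg σ) * Lx x := by
      rw [sg_inv, map_inv]; group
    rw [e] at h1
    exact h1
  -- deep steps
  have hdeep : ∀ σ (s : ℤ × Bool), Odd s.1 → X.OK t0 σ s → SG s.1 σ := by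
    rintro σ ⟨x, d⟩ hx hok
    obtain ⟨α, h1, h2⟩ := hin σ (x, d) hx (X.OK_mono ht0.le σ _ hok)
    simp only at h1 h2 ⊢
    have hok' := hok
    rw [X.OK_iff] at hok'
    have hstep := A.step α σ
    have hd : X.dl σ + t0 ≤ A.p α ∧ A.q α ≤ X.dl σ + X.l σ.1 - t0 := by
      rcases hstep with h | h | h
      · exact h
      · exfalso; omega
      · exfalso; omega
    obtain ⟨β, hβ, b1, b2, b3, b4⟩ := A.deep_pt α σ hd.1 hd.2 x h1 h2
    have e1 : A.pi (X.mvx σ x) = A.pi x := by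
      rw [A.pi_eq b1 b2, A.pi_eq h1 h2, b3]
    have e2 : (Lx (X.mvx σ x))⁻¹ * θ (sg σ) * Lx x = 1 := by
      simp only [hLx]
      rw [A.wd_eq b1 b2, A.wd_eq h1 h2, ← map_inv, ← map_mul, ← map_mul]
      exact hN α β σ b4
    simp only [hSG]
    rw [e1, e2]
    exact Rel.refl _
  -- general walk lemma
  have hwalk : ∀ (P : J × Bool → ℤ × Bool → Prop), (∀ σ s, Odd s.1 → P σ s → SG s.1 σ) →
      ∀ (δ : List (J × Bool)) (s : ℤ × Bool), Odd s.1 → X.Valid P δ s →
      RR (A.pi s.1) (A.pi (X.run δ s).1) ((Lx (X.run δ s).1)⁻¹ * θ (lab δ) * Lx s.1) := by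
    intro P hP δ
    induction δ with
    | nil =>
      intro s _ _
      have : (Lx (X.run [] s).1)⁻¹ * θ (lab []) * Lx s.1 = 1 := by
        simp [run, lab]
      rw [this]
      exact Rel.refl _
    | cons σ δ ih =>
      intro s hs hval
      have h1 := hP σ s hs hval.1
      have h2 := ih (X.mv σ s) (X.odd_mvx hdl hle σ hs) hval.2
      have h3 := Rel.trans h1 h2
      have e : (Lx (X.run δ (X.mv σ s)).1)⁻¹ * θ (lab δ) * Lx (X.mv σ s).1 *
          ((Lx (X.mvx σ s.1))⁻¹ * θ (sg σ) * Lx s.1)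
          = (Lx (X.run (σ :: δ) s).1)⁻¹ * θ (lab (σ :: δ)) * Lx s.1 := by
        simp only [run, lab, map_mul]
        have : (X.mv σ s).1 = X.mvx σ s.1 := rfl
        rw [this]
        group
      rw [e] at h3
      exact h3
  -- from zippers to states
  have hzst : ∀ σ (s : ℤ × Bool), SG (X.zs (X.zip σ s.2) (X.fw σ s)).1 (σ.1, true) →
      SG s.1 σ := by
    rintro ⟨j, b⟩ s h
    cases b
    · apply hsymm
      have e1 : X.zip (inv (j, false)) (X.mv (j, false) s).2 = X.zip (j, false) s.2 :=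
        X.zip_mv (j, false) s
      have e2 : X.fw (inv (j, false)) (X.mv (j, false) s) = X.fw (j, false) s :=
        X.fw_mv (j, false) s
      rw [← e1, ← e2] at h
      have e3 := X.zs_state j (X.mv (j, false) s)
      have e4 : inv ((j, false) : J × Bool) = (j, true) := rfl
      rw [e4] at h ⊢
      rw [e3] at h
      exact h
    · rw [X.zs_state j s] at h
      exact h
  -- zippers
  have hodd_zs : ∀ z t, Odd t → Odd (X.zs z t).1 := by
    intro z t ht
    have h1 := hdl (z.1, true)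
    simp only [dl, if_true] at h1
    unfold zs
    dsimp only
    split_ifs
    · exact (h1.add (hle _)).sub_odd ht
    · exact h1.add_odd ht
  have hZ : ∀ (n : ℕ) (t : ℤ), Odd t → 0 < t → t < t0 → (t0 - t).toNat = n →
      ∀ (r : ℕ) (z : J × Bool), rk z = r → SG (X.zs z t).1 (z.1, true) := by
    intro n
    induction n using Nat.strong_induction_on with
    | _ n ihn =>
      intro t hto ht htt hn r
      induction r using Nat.strong_induction_on with
      | _ r ihr =>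
        intro z hz
        by_cases hzE : z ∈ EZ
        · have he : (z, t) ∈ (EE : Set ((J × Bool) × ℤ)) := by
            rw [mem_coe, hEE, mem_product, mem_filter, mem_Ioo]
            exact ⟨hzE, ⟨ht, htt⟩, hto⟩
          exact Rel.one_fwd (u := u) (v := v) (ℓ := ℓ) he
        · obtain ⟨γ, g1, g2, g3⟩ := hred z hzE
          have g4 := X.allowed_sh rk z htt.le γ _ g1
          rw [← X.zs_sh z t0 t] at g4
          have g5 : X.run γ (X.zs z t) = X.mv (z.1, true) (X.zs z t) := by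
            rw [X.zs_sh z t0 t, X.run_sh, g2, X.mv_sh]
          have hw := hwalk _ ?_ γ _ (hodd_zs z t hto) g4
          · rw [g5, g3] at hw
            exact hw
          · rintro σ s hso ⟨s1, s2⟩
            have hfo := X.odd_fw hdl hle σ s hso
            have hfw : t ≤ X.fw σ s := by
              rcases s2 with s2 | s2
              · exact s2.le
              · exact s2.1.le
            by_cases hcase : t0 ≤ X.fw σ s
            · exact hdeep σ s hso ⟨hcase, by omega⟩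
            · push Not at hcase
              apply hzst
              rcases s2 with s2 | ⟨s2, s3⟩
              · refine ihn (t0 - X.fw σ s).toNat (by omega) _ hfo (by omega) hcase rfl _ _ rfl
              · rw [← s2]
                exact ihr _ (hz ▸ s3) _ rfl
  -- all steps
  have hall : ∀ σ (s : ℤ × Bool), Odd s.1 → X.OK 0 σ s → SG s.1 σ := by
    rintro σ ⟨x, d⟩ hx hok
    have key : ∀ d, 0 ≤ X.fw σ (x, d) → X.fw σ (x, d) < t0 → SG x σ := by
      intro d h0 h1
      have hfo := X.odd_fw hdl hle σ (x, d) hx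
      have h0' : 0 < X.fw σ (x, d) := by
        rcases h0.lt_or_eq with h | h
        · exact h
        · rw [← h] at hfo; exact absurd hfo (by decide)
      have h2 := hZ (t0 - X.fw σ (x, d)).toNat (X.fw σ (x, d)) hfo h0' h1 rfl _
        (X.zip σ d) rfl
      exact hzst σ (x, d) h2
    by_cases h1 : X.fw σ (x, d) < t0
    · exact key d hok.1 h1
    · by_cases h2 : X.bw σ (x, d) < t0
      · refine key (!d) ?_ ?_ <;> rw [X.fw_not]
        · exact hok.2
        · exact h2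
      · exact hdeep σ (x, d) hx ⟨not_lt.1 h1, not_lt.1 h2⟩
  -- vertices
  set VV : Finset ℤ := (univ.filter (fun α => A.rep α = α)).biUnion
    (fun α => (Finset.Ioo (A.p α) (A.q α)).filter (fun x => Odd x)) with hVV
  have hmemV : ∀ x, x ∈ VV ↔ ∃ α, A.rep α = α ∧ A.p α < x ∧ x < A.q α ∧ Odd x := by
    intro x
    simp only [hVV, mem_biUnion, mem_filter, mem_univ, true_and, mem_Ioo]
    constructor
    · rintro ⟨α, h1, ⟨h2, h3⟩, h4⟩; exact ⟨α, h1, h2, h3, h4⟩
    · rintro ⟨α, h1, h2, h3, h4⟩; exact ⟨α, h1, ⟨h2, h3⟩, h4⟩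
  have hpiV : ∀ x α, Odd x → A.p α < x → x < A.q α → A.pi x ∈ VV := by
    intro x α hx h1 h2
    rw [A.pi_eq h1 h2, hmemV]
    obtain ⟨k1, k2⟩ := A.pt_mem α x h1 h2
    refine ⟨A.rep α, A.rep_rep α, k1, k2, ?_⟩
    unfold AD.pt AD.par
    rcases A.s_eq' α with h | h <;> rw [h] <;> simp only [if_true, Bool.false_eq_true, if_false]
    · exact (hpe _).1.add_odd (hx.sub_even (hpe _).1)
    · exact (hpe _).1.add_odd ((hpe _).2.sub_odd hx)
  have hzsOK : ∀ e ∈ EE, X.OK 0 (e.1.1, true) (X.zs e.1 e.2) ∧ Odd (X.zs e.1 e.2).1 := by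
    intro e he
    rw [hEE, mem_product, mem_filter, mem_Ioo] at he
    refine ⟨⟨?_, ?_⟩, hodd_zs _ _ he.2.2⟩
    · rw [X.zs_fw]; exact he.2.1.1.le
    · rw [X.zs_bw]; linarith [hl e.1.1, he.2.1.2]
  have huV : ∀ e ∈ EE, u e ∈ VV := by
    intro e he
    obtain ⟨k1, k2⟩ := hzsOK e he
    obtain ⟨α, h1, h2⟩ := hin _ _ k2 k1
    exact hpiV _ α k2 h1 h2
  have hvV : ∀ e ∈ EE, v e ∈ VV := by
    intro e he
    obtain ⟨k1, k2⟩ := hzsOK e he
    have k3 := X.odd_mvx hdl hle (e.1.1, true) k2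
    obtain ⟨α, h1, h2⟩ := hin (inv (e.1.1, true)) (X.mv (e.1.1, true) (X.zs e.1 e.2)) k3
      ((X.OK_mv 0 _ _).2 k1)
    exact hpiV _ α k3 h1 h2
  have hcardV : 2 * (VV.card : ℤ) = ∑ α ∈ univ.filter (fun α => A.rep α = α), (A.q α - A.p α) := by
    rw [hVV, card_biUnion]
    · push_cast
      rw [mul_sum]
      refine sum_congr rfl fun α _ => ?_
      exact card_odd_Ioo (hpe α).1 (hpe α).2 (A.lt α).le
    · intro α _ β _ hne
      rw [Function.onFun, disjoint_left]
      intro x hx hx'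
      rw [mem_filter, mem_Ioo] at hx hx'
      exact hne (A.uniq α β x hx.1.1 hx.1.2 hx'.1.1 hx'.1.2)
  have hcardE : 2 * (EE.card : ℤ) = EZ.card * t0 := by
    rw [hEE, card_product]
    have h5 := card_odd_Ioo (a := 0) (b := t0) (by simp) ht0e ht0.le
    push_cast
    rw [sub_zero] at h5
    rw [mul_left_comm, h5]
  have hcard : EE.card ≤ VV.card := by
    have : (EE.card : ℤ) ≤ VV.card := by linarith
    exact_mod_cast this
  have hneV : VV.Nonempty := by
    obtain ⟨α⟩ := ‹Nonempty ι›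
    refine ⟨A.p (A.rep α) + 1, (hmemV _).2 ⟨A.rep α, A.rep_rep α, by omega, ?_, ?_⟩⟩
    · have h1 := A.lt (A.rep α)
      obtain ⟨m, hm⟩ := (hpe (A.rep α)).1
      obtain ⟨n, hn⟩ := (hpe (A.rep α)).2
      omega
    · exact (hpe _).1.add_odd odd_one
  obtain ⟨e, heV, c, hc⟩ := cyc_labels VV EE u v huV hvV ℓ hneV hcard
  obtain ⟨α, hα, e1, e2, e3⟩ := (hmemV e).1 heV
  refine ⟨e, α, hα, e3, e1, e2, c, fun γ d hval hrun => ?_⟩
  have h1 := hwalk (X.OK 0) hall γ (e, d) e3 hval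
  rw [hrun] at h1
  have hpe' : A.pi e = e := by
    rw [A.pi_eq e1 e2, ← hα, A.pt_rep]
  have hLe : Lx e = 1 := by
    simp only [hLx]
    rw [A.wd_eq e1 e2, ← hα, A.w_rep]
    simp [lab]
  simp only at h1
  rw [hpe', hLe] at h1
  have h2 := hc _ h1
  simpa using h2

end Sys

end Pool.Agent.FrZ
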