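import Pool.Agent.Lib.MP_305fdd_al.Fr.Z.RealAD

/-!
# Transport of an arc decomposition to an integral system
-/

set_option autoImplicit false
set_option linter.unusedSectionVars false
set_option linter.unusedVariables false
set_option linter.unnecessarySeqFocus false

open Finset

namespace Pool.Agent.FrZ

variable {J I : Type}

/-- `X'` is the image of `X` under `L`, and all its parameters are even. -/
structure Tp (L : ℝ →+ ℚ) (X : Sys J I ℝ) (X' : Sys J I ℤ) : Prop where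
  a : ∀ j, (X'.a j : ℚ) = L (X.a j)
  b : ∀ j, (X'.b j : ℚ) = L (X.b j)
  l : ∀ j, (X'.l j : ℚ) = L (X.l j)
  lo : ∀ i, (X'.lo i : ℚ) = L (X.lo i)
  hi : ∀ i, (X'.hi i : ℚ) = L (X.hi i)
  fl : X'.fl = X.fl
  ca : X'.ca = X.ca
  cb : X'.cb = X.cb
  ea : ∀ j, Even (X'.a j)
  eb : ∀ j, Even (X'.b j)
  el : ∀ j, Even (X'.l j)
  elo : ∀ i, Even (X'.lo i)
  ehi : ∀ i, Even (X'.hi i)

/-- the numbers with even integral value -/
def Lam (L : ℝ →+ ℚ) : AddSubgroup ℝ where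
  carrier := {x | ∃ n : ℤ, L x = 2 * n}
  add_mem' := by
    rintro x y ⟨m, hm⟩ ⟨n, hn⟩
    exact ⟨m + n, by rw [map_add, hm, hn]; push_cast; ring⟩
  zero_mem' := ⟨0, by simp⟩
  neg_mem' := by
    rintro x ⟨m, hm⟩
    exact ⟨-m, by rw [map_neg, hm]; push_cast; ring⟩

/-- the integral value -/
noncomputable def Lz (L : ℝ →+ ℚ) (x : ℝ) : ℤ := ⌊L x⌋

section
variable {L : ℝ →+ ℚ}

theorem Lz_cast {x : ℝ} (hx : x ∈ Lam L) : (Lz L x : ℚ) = L x := by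
  obtain ⟨n, hn⟩ := hx
  unfold Lz
  rw [hn]
  have : (2 * (n : ℚ)) = ((2 * n : ℤ) : ℚ) := by push_cast; ring
  rw [this, Int.floor_intCast]

theorem Lz_even {x : ℝ} (hx : x ∈ Lam L) : Even (Lz L x) := by
  obtain ⟨n, hn⟩ := hx
  unfold Lz
  rw [hn]
  have : (2 * (n : ℚ)) = ((2 * n : ℤ) : ℚ) := by push_cast; ring
  rw [this, Int.floor_intCast]
  exact even_two_mul n

theorem Lz_eq {x : ℝ} (hx : x ∈ Lam L) (n : ℤ) : Lz L x = n ↔ L x = n := by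
  rw [← Lz_cast hx, Int.cast_inj]

end

namespace Tp

variable {L : ℝ →+ ℚ} {X : Sys J I ℝ} {X' : Sys J I ℤ} (T : Tp L X X')
include T

theorem dl (σ : J × Bool) : (X'.dl σ : ℚ) = L (X.dl σ) := by
  unfold Sys.dl
  split_ifs
  · exact T.a _
  · exact T.b _

theorem edl (σ : J × Bool) : Even (X'.dl σ) := by
  unfold Sys.dl
  split_ifs
  · exact T.ea _
  · exact T.eb _

theorem mem_a (j : J) : X.a j ∈ Lam L := by
  obtain ⟨n, hn⟩ := T.ea j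
  refine ⟨n, ?_⟩
  rw [← T.a, hn]; push_cast; ring

theorem mem_b (j : J) : X.b j ∈ Lam L := by
  obtain ⟨n, hn⟩ := T.eb j
  refine ⟨n, ?_⟩
  rw [← T.b, hn]; push_cast; ring

theorem mem_l (j : J) : X.l j ∈ Lam L := by
  obtain ⟨n, hn⟩ := T.el j
  refine ⟨n, ?_⟩
  rw [← T.l, hn]; push_cast; ring

theorem mem_lo (i : I) : X.lo i ∈ Lam L := by
  obtain ⟨n, hn⟩ := T.elo i
  refine ⟨n, ?_⟩
  rw [← T.lo, hn]; push_cast; ring

theorem mem_hi (i : I) : X.hi i ∈ Lam L := by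
  obtain ⟨n, hn⟩ := T.ehi i
  refine ⟨n, ?_⟩
  rw [← T.hi, hn]; push_cast; ring

theorem mem_dl (σ : J × Bool) : X.dl σ ∈ Lam L := by
  unfold Sys.dl
  split_ifs
  · exact T.mem_a _
  · exact T.mem_b _

theorem mem_mvx (σ : J × Bool) {x : ℝ} (hx : x ∈ Lam L) : X.mvx σ x ∈ Lam L := by
  unfold Sys.mvx
  split_ifs
  · exact (Lam L).add_mem (T.mem_dl _)
      ((Lam L).sub_mem ((Lam L).add_mem (T.mem_dl _) (T.mem_l _)) hx)
  · exact (Lam L).add_mem (T.mem_dl _) ((Lam L).sub_mem hx (T.mem_dl _))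

theorem mvx (σ : J × Bool) {x : ℝ} (hx : x ∈ Lam L) : X'.mvx σ (Lz L x) = Lz L (X.mvx σ x) := by
  rw [eq_comm, Lz_eq (T.mem_mvx σ hx)]
  unfold Sys.mvx
  rw [T.fl]
  split_ifs
  · push_cast
    rw [map_add, map_sub, map_add, T.dl, T.dl, T.l, Lz_cast hx]
  · push_cast
    rw [map_add, map_sub, T.dl, T.dl, Lz_cast hx]

theorem mv (σ : J × Bool) {x : ℝ} (hx : x ∈ Lam L) (d : Bool) :
    X'.mv σ (Lz L x, d) = (Lz L (X.mv σ (x, d)).1, (X.mv σ (x, d)).2) := by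
  simp only [Sys.mv, T.mvx σ hx, T.fl]

variable {C : Finset ℝ} (hCL : ∀ c ∈ C, c ∈ Lam L) (hmono : ∀ c ∈ C, ∀ d ∈ C, c < d → L c < L d)

include hCL hmono in
omit T in
theorem lz_lt {c d : ℝ} (hc : c ∈ C) (hd : d ∈ C) : Lz L c < Lz L d ↔ c < d := by
  have h1 : Lz L c < Lz L d ↔ L c < L d := by
    rw [← Lz_cast (hCL c hc), ← Lz_cast (hCL d hd), Int.cast_lt]
  rw [h1]
  constructor
  · intro h
    by_contra h'
    push Not at h'
    rcases h'.lt_or_eq with h' | h'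
    · exact absurd (hmono d hd c hc h') (not_lt.2 h.le)
    · rw [h'] at h
      exact lt_irrefl _ h
  · exact hmono c hc d hd

include hCL hmono in
omit T in
theorem lz_le {c d : ℝ} (hc : c ∈ C) (hd : d ∈ C) : Lz L c ≤ Lz L d ↔ c ≤ d := by
  rw [← not_lt, ← not_lt, lz_lt hCL hmono hd hc]

include hCL hmono in
omit T in
theorem lz_inj {c d : ℝ} (hc : c ∈ C) (hd : d ∈ C) : Lz L c = Lz L d ↔ c = d := by
  rw [le_antisymm_iff, le_antisymm_iff, lz_le hCL hmono hc hd, lz_le hCL hmono hd hc]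

variable {t0 : ℝ} (ht0 : t0 ∈ Lam L) (hC : X.Inv t0 C)
  (ht1 : ∀ σ, X.dl σ + t0 ∈ C) (ht2 : ∀ σ, X.dl σ + X.l σ.1 - t0 ∈ C)

include ht0 in
theorem lz_dl1 (σ : J × Bool) : Lz L (X.dl σ + t0) = X'.dl σ + Lz L t0 := by
  rw [Lz_eq ((Lam L).add_mem (T.mem_dl σ) ht0)]
  push_cast
  rw [map_add, T.dl, Lz_cast ht0]

include ht0 in
theorem lz_dl2 (σ : J × Bool) : Lz L (X.dl σ + X.l σ.1 - t0) = X'.dl σ + X'.l σ.1 - Lz L t0 := by
  rw [Lz_eq ((Lam L).sub_mem ((Lam L).add_mem (T.mem_dl σ) (T.mem_l _)) ht0)]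
  push_cast
  rw [map_sub, map_add, T.dl, T.l, Lz_cast ht0]

include hCL hmono ht0 ht1 ht2 in
theorem ok {c : ℝ} (hc : c ∈ C) (σ : J × Bool) (d : Bool) (h : X.OK t0 σ (c, d)) :
    X'.OK (Lz L t0) σ (Lz L c, d) := by
  rw [X.OK_iff] at h
  rw [X'.OK_iff]
  constructor
  · rw [← T.lz_dl1 ht0, lz_le hCL hmono (ht1 σ) hc]
    exact h.1
  · have h2 := T.lz_dl2 ht0 σ
    have h3 : Lz L c ≤ Lz L (X.dl σ + X.l σ.1 - t0) := by
      rw [lz_le hCL hmono hc (ht2 σ)]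
      linarith [h.2]
    rw [h2] at h3
    linarith

include hCL hmono ht0 hC ht1 ht2 in
theorem valid_run (γ : List (J × Bool)) : ∀ (c : ℝ) (d : Bool), c ∈ C →
    X.Valid (X.OK t0) γ (c, d) → X'.Valid (X'.OK (Lz L t0)) γ (Lz L c, d) ∧
      (X.run γ (c, d)).1 ∈ C ∧
      X'.run γ (Lz L c, d) = (Lz L (X.run γ (c, d)).1, (X.run γ (c, d)).2) := by
  induction γ with
  | nil => exact fun c d hc _ => ⟨trivial, hc, rfl⟩
  | cons σ γ ih =>
    intro c d hc hv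
    have hmem := hC c hc σ d hv.1
    obtain ⟨h1, h2, h3⟩ := ih _ _ hmem hv.2
    have hmv := T.mv σ (hCL c hc) d
    refine ⟨⟨T.ok hCL hmono ht0 ht1 ht2 hc σ d hv.1, ?_⟩, h2, ?_⟩
    · rw [hmv]; exact h1
    · simp only [Sys.run]
      rw [hmv]
      exact h3

end Tp

/-- transport of the arc decomposition -/
theorem exists_AD_int {L : ℝ →+ ℚ} {X : Sys J I ℝ} {X' : Sys J I ℤ} (T : Tp L X X')
    {C : Finset ℝ} (hCL : ∀ c ∈ C, c ∈ Lam L) (hmono : ∀ c ∈ C, ∀ d ∈ C, c < d → L c < L d)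
    {t0 : ℝ} (ht0 : t0 ∈ Lam L) (hC : X.Inv t0 C)
    (hlo : ∀ i, X.lo i ∈ C) (hhi : ∀ i, X.hi i ∈ C)
    (ht1 : ∀ σ, X.dl σ + t0 ∈ C) (ht2 : ∀ σ, X.dl σ + X.l σ.1 - t0 ∈ C) {N : Set (FreeGroup J)}
    (A : AD X t0 N {α : ℝ × ℝ // X.IsArc C α}) (hA : ∀ α, A.p α = α.1.1 ∧ A.q α = α.1.2) :
    ∃ A' : AD X' (Lz L t0) N {α : ℝ × ℝ // X.IsArc C α},
      (∀ α, A'.p α = Lz L (A.p α) ∧ A'.q α = Lz L (A.q α)) ∧ A'.rep = A.rep ∧ A'.w = A.w := by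
  have hpC : ∀ α, A.p α ∈ C := fun α => (hA α).1 ▸ α.2.1
  have hqC : ∀ α, A.q α ∈ C := fun α => (hA α).2 ▸ α.2.2.1
  have hdl1 := T.lz_dl1 ht0
  have hdl2 := T.lz_dl2 ht0
  have hloL : ∀ i, Lz L (X.lo i) = X'.lo i := fun i => by
    rw [Lz_eq (T.mem_lo i), T.lo]
  have hhiL : ∀ i, Lz L (X.hi i) = X'.hi i := fun i => by
    rw [Lz_eq (T.mem_hi i), T.hi]
  refine ⟨{ p := fun α => Lz L (A.p α), q := fun α => Lz L (A.q α), rep := A.rep, w := A.w,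
            lt := ?_, rep_rep := A.rep_rep, w_rep := A.w_rep, w_p := ?_, w_q := ?_, len := ?_,
            s_eq := ?_, comp := ?_, cover := ?_, uniq := ?_, step := ?_, deep := ?_ },
    fun α => ⟨rfl, rfl⟩, rfl, rfl⟩
  · intro α
    exact (Tp.lz_lt hCL hmono (hpC α) (hqC α)).2 (A.lt α)
  · intro α
    exact (T.valid_run hCL hmono ht0 hC ht1 ht2 _ _ _ (hpC _) (A.w_p α)).1
  · intro α
    exact (T.valid_run hCL hmono ht0 hC ht1 ht2 _ _ _ (hqC _) (A.w_q α)).1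
  · intro α
    have h := congrArg L (A.len α)
    rw [map_sub, map_sub, ← Lz_cast (hCL _ (hqC _)), ← Lz_cast (hCL _ (hpC _)),
      ← Lz_cast (hCL _ (hqC _)), ← Lz_cast (hCL _ (hpC _))] at h
    exact_mod_cast h
  · intro α
    have h := (T.valid_run hCL hmono ht0 hC ht1 ht2 _ _ _ (hpC _) (A.w_p α)).2.2
    rw [h]
    rcases A.s_eq α with h' | h' <;> rw [h']
    · exact Or.inl rfl
    · exact Or.inr rfl
  · intro α
    obtain ⟨i, i1, i2⟩ := A.comp α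
    refine ⟨i, ?_, ?_⟩
    · rw [← hloL]; exact (Tp.lz_le hCL hmono (hlo i) (hpC α)).2 i1
    · rw [← hhiL]; exact (Tp.lz_le hCL hmono (hqC α) (hhi i)).2 i2
  · intro x i h1 h2 hne
    rw [← hloL] at h1
    rw [← hhiL] at h2
    have hSA : (C.filter (fun c => Lz L c < x)).Nonempty := ⟨X.lo i, by simp [hlo i, h1]⟩
    have hSB : (C.filter (fun c => x < Lz L c)).Nonempty := ⟨X.hi i, by simp [hhi i, h2]⟩
    obtain ⟨c, hc, hcmax⟩ := exists_max_image _ id hSA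
    obtain ⟨d, hd, hdmin⟩ := exists_min_image _ id hSB
    simp only [id, mem_filter] at hc hd hcmax hdmin
    have hcd : c < d := (Tp.lz_lt hCL hmono hc.1 hd.1).1 (hc.2.trans hd.2)
    have hloc : X.lo i ≤ c := hcmax _ ⟨hlo i, h1⟩
    have hdhi : d ≤ X.hi i := hdmin _ ⟨hhi i, h2⟩
    have hxne : ∀ e ∈ C, c < e → e < d → Lz L e = x := by
      intro e he h3 h4
      rcases lt_trichotomy (Lz L e) x with h | h | h
      · exact absurd (hcmax e ⟨he, h⟩) (not_le.2 h3)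
      · exact h
      · exact absurd (hdmin e ⟨he, h⟩) (not_le.2 h4)
    have hno : ∀ e ∈ C, ¬ (c < e ∧ e < d) := by
      rintro e he ⟨h3, h4⟩
      have hx := hxne e he h3 h4
      have harc : X.IsArc C (c, e) := by
        refine ⟨hc.1, he, h3, ⟨i, hloc, h4.le.trans hdhi⟩, ?_⟩
        rintro e' he' ⟨h5, h6⟩
        have hx' := hxne e' he' h5 (h6.trans h4)
        have := (Tp.lz_inj hCL hmono he' he).1 (hx'.trans hx.symm)
        exact absurd this h6.ne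
      have := (hne ⟨(c, e), harc⟩).2
      rw [(hA _).2] at this
      exact this hx.symm
    refine ⟨⟨(c, d), ⟨hc.1, hd.1, hcd, ⟨i, hloc, hdhi⟩, hno⟩⟩, ?_, ?_⟩
    · rw [(hA _).1]; exact hc.2
    · rw [(hA _).2]; exact hd.2
  · intro α β x h1 h2 h3 h4
    rw [(hA _).1] at h1 h3
    rw [(hA _).2] at h2 h4
    have key : ∀ α β : {α : ℝ × ℝ // X.IsArc C α}, Lz L β.1.1 < x → x < Lz L α.1.2 →
        ¬ α.1.1 < β.1.1 := by
      intro α β h5 h6 h7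
      have h8 := (Tp.lz_lt hCL hmono β.2.1 α.2.2.1).1 (h5.trans h6)
      exact α.2.2.2.2.2 _ β.2.1 ⟨h7, h8⟩
    have key2 : ∀ α β : {α : ℝ × ℝ // X.IsArc C α}, Lz L α.1.1 < x → x < Lz L β.1.2 →
        ¬ β.1.2 < α.1.2 := by
      intro α β h5 h6 h7
      have h8 := (Tp.lz_lt hCL hmono α.2.1 β.2.2.1).1 (h5.trans h6)
      exact α.2.2.2.2.2 _ β.2.2.1 ⟨h8, h7⟩
    apply Subtype.ext
    apply Prod.ext
    · exact le_antisymm (not_lt.1 (key β α h1 h4)) (not_lt.1 (key α β h3 h2))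
    · exact le_antisymm (not_lt.1 (key2 α β h1 h4)) (not_lt.1 (key2 β α h3 h2))
  · intro α σ
    rw [← hdl1, ← hdl2]
    rw [Tp.lz_le hCL hmono (ht1 σ) (hpC α), Tp.lz_le hCL hmono (hqC α) (ht2 σ),
      Tp.lz_le hCL hmono (hqC α) (ht1 σ), Tp.lz_le hCL hmono (ht2 σ) (hpC α)]
    exact A.step α σ
  · intro α σ h1 h2
    rw [← hdl1, Tp.lz_le hCL hmono (ht1 σ) (hpC α)] at h1
    rw [← hdl2, Tp.lz_le hCL hmono (hqC α) (ht2 σ)] at h2
    obtain ⟨β, hβ, hs, hN⟩ := A.deep α σ h1 h2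
    refine ⟨β, hβ, ?_, hN⟩
    have e1 := T.valid_run hCL hmono ht0 hC ht1 ht2 _ _ _ (hpC _) (A.w_p α)
    have e2 := T.valid_run hCL hmono ht0 hC ht1 ht2 _ _ _ (hpC _) (A.w_p β)
    rw [e1.2.2, e2.2.2, T.mv σ (hCL _ e1.2.1)]
    rw [hs]

end Pool.Agent.FrZ
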