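import Pool.Agent.Lib.MP_305fdd_al.Fr.Z.Int
import Pool.Agent.Lib.MP_305fdd_al.Fr.Z.Trans

/-!
# The zipper theorem (Theorem R, sections 1 and 2)
-/

set_option autoImplicit false
set_option linter.unusedSectionVars false
set_option linter.unusedVariables false
set_option linter.unnecessarySeqFocus false

open Finset

namespace Pool.Agent.FrZ

variable {J I : Type}

namespace Tp

variable {L : ℝ →+ ℚ} {X : Sys J I ℝ} {X' : Sys J I ℤ} (T : Tp L X X')
variable {C : Finset ℝ} (hCL : ∀ c ∈ C, c ∈ Lam L) (hmono : ∀ c ∈ C, ∀ d ∈ C, c < d → L c < L d)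
  {t0 : ℝ} (ht0 : t0 ∈ Lam L) (hC : X.Inv t0 C)
  (ht1 : ∀ σ, X.dl σ + t0 ∈ C) (ht2 : ∀ σ, X.dl σ + X.l σ.1 - t0 ∈ C)

include T hCL hmono ht0 ht1 ht2 in
theorem allowed {c : ℝ} (hc : c ∈ C) (rk : J × Bool → ℕ) (z σ : J × Bool) (d : Bool)
    (h : X.Allowed rk z t0 σ (c, d)) : X'.Allowed rk z (Lz L t0) σ (Lz L c, d) := by
  have hzip : ∀ d, X'.zip σ d = X.zip σ d := fun d => by simp only [Sys.zip, T.fl]
  have hok : X.OK t0 σ (c, d) := by
    refine ⟨?_, h.1⟩
    rcases h.2 with h | h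
    · exact h.le
    · exact h.1.le
  have hok' := T.ok hCL hmono ht0 ht1 ht2 hc σ d hok
  refine ⟨hok'.2, ?_⟩
  have k1 := T.lz_dl1 ht0 σ
  have k2 := T.lz_dl2 ht0 σ
  have m1 := lz_lt hCL hmono (ht1 σ) hc
  have m2 := lz_lt hCL hmono hc (ht2 σ)
  have m3 := lz_inj hCL hmono (ht1 σ) hc
  have m4 := lz_inj hCL hmono hc (ht2 σ)
  rw [k1] at m1 m3
  rw [k2] at m2 m4
  rcases h.2 with h2 | ⟨h2, h3⟩
  · left
    cases d <;> simp only [Sys.fw, if_true, Bool.false_eq_true, if_false] at h2 ⊢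
    · have := m1.2 (by linarith)
      linarith
    · have := m2.2 (by linarith)
      linarith
  · right
    refine ⟨?_, by rw [hzip]; exact h3⟩
    cases d <;> simp only [Sys.fw, if_true, Bool.false_eq_true, if_false] at h2 ⊢
    · have := m3.2 (by linarith)
      linarith
    · have := m4.2 (by linarith)
      linarith

include T hCL hmono ht0 hC ht1 ht2 in
theorem valid_allowed (rk : J × Bool → ℕ) (z : J × Bool) (γ : List (J × Bool)) :
    ∀ (c : ℝ) (d : Bool), c ∈ C → X.Valid (X.Allowed rk z t0) γ (c, d) →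
      X'.Valid (X'.Allowed rk z (Lz L t0)) γ (Lz L c, d) := by
  induction γ with
  | nil => exact fun c d hc _ => trivial
  | cons σ γ ih =>
    intro c d hc hv
    have hok : X.OK t0 σ (c, d) := by
      refine ⟨?_, hv.1.1⟩
      rcases hv.1.2 with h | h
      · exact h.le
      · exact h.1.le
    have hmem := hC c hc σ d hok
    have h1 := ih _ _ hmem hv.2
    have hmv := T.mv σ (hCL c hc) d
    refine ⟨T.allowed hCL hmono ht0 ht1 ht2 hc rk z σ d hv.1, ?_⟩
    rw [hmv]; exact h1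

end Tp

theorem Sys.allowed_OK {R : Type} [CommRing R] [LinearOrder R] (X : Sys J I R)
    (rk : J × Bool → ℕ) (z : J × Bool) (t : R) (σ : J × Bool) (s : R × Bool)
    (h : X.Allowed rk z t σ s) : X.OK t σ s := by
  refine ⟨?_, h.1⟩
  rcases h.2 with h | h
  · exact h.le
  · exact h.1.le

/-- THE ZIPPER THEOREM. -/
theorem zipper [Fintype J] [Fintype I] [Nonempty I] {Γ : Type} [Group Γ] (X : Sys J I ℝ)
    (hX : X.Good) (ρ : FreeGroup J →* Γ) (hρ : X.Arc ρ) (hfin : X.FinOrb) :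
    ∃ (F₀ E₀ : Finset ℝ) (W : Finset (FreeGroup J)), (∀ f ∈ F₀, 0 < f) ∧ (∀ w ∈ W, ρ w = 1) ∧
      ∀ (L : ℝ →+ ℚ) (X' : Sys J I ℤ), Tp L X X' → (∀ f ∈ F₀, 0 < L f) →
        (∀ x ∈ E₀, x ∈ Lam L) →
        X'.Good ∧
        (∃ e i, X'.lo i < e ∧ e < X'.hi i ∧ Odd e ∧
          ∃ c : FreeGroup J ⧸ Subgroup.normalClosure (W : Set (FreeGroup J)), ∀ γ d,
            X'.Valid (X'.OK 0) γ (e, d) → (X'.run γ (e, d)).1 = e →
            (QuotientGroup.mk' (Subgroup.normalClosure (W : Set (FreeGroup J)))) (lab γ) ∈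
              Subgroup.zpowers c) ∧
        (∀ w ∈ W, ∃ γ x d i, X'.lo i < x ∧ x < X'.hi i ∧ Odd x ∧
          X'.Valid (X'.OK 0) γ (x, d) ∧ X'.run γ (x, d) = (x, d) ∧ lab γ = w) := by
  classical
  -- the order of the zippers
  set rk : J × Bool → ℕ := fun z => (Fintype.equivFin (J × Bool) z : ℕ) with hrkdef
  have hrk : Function.Injective rk := fun z z' h =>
    (Fintype.equivFin (J × Bool)).injective (Fin.ext h)
  -- the choice of `t0`
  set tz : J × Bool → ℝ := fun z => if h : ∃ t, 0 < t ∧ X.Red rk z t then h.choose else 1 with htz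
  have htz0 : ∀ z, 0 < tz z := by
    intro z
    simp only [htz]
    split_ifs with h
    · exact h.choose_spec.1
    · exact one_pos
  set SS : Finset ℝ := insert 1 (univ.image tz ∪ univ.image (fun j => X.l j / 3)) with hSS
  have hSSne : SS.Nonempty := ⟨1, by simp [hSS]⟩
  set t0 : ℝ := SS.min' hSSne with ht0def
  have ht0pos : 0 < t0 := by
    have h := SS.min'_mem hSSne
    rw [← ht0def] at h
    rw [hSS, mem_insert, mem_union, mem_image, mem_image] at h
    rcases h with h | ⟨z, -, h⟩ | ⟨j, -, h⟩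
    · rw [h]; exact one_pos
    · rw [← h]; exact htz0 z
    · rw [← h]; linarith [hX.l_pos j]
  have ht0z : ∀ z, t0 ≤ tz z := fun z => min'_le _ _ (by simp [hSS])
  have ht0l : ∀ j, 2 * t0 < X.l j := by
    intro j
    have h1 : t0 ≤ X.l j / 3 := min'_le _ _ (by simp [hSS])
    linarith [hX.l_pos j]
  set EZ : Finset (J × Bool) := univ.filter (fun z => ∀ t, 0 < t → ¬ X.Red rk z t) with hEZ
  have hredz : ∀ z, z ∉ EZ → X.Red rk z t0 := by
    intro z hz
    have h : ∃ t, 0 < t ∧ X.Red rk z t := by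
      simp only [hEZ, mem_filter, mem_univ, true_and, not_forall, not_not] at hz
      obtain ⟨t, h1, h2⟩ := hz
      exact ⟨t, h1, h2⟩
    have h2 : tz z = h.choose := by simp only [htz]; rw [dif_pos h]
    have h3 := ht0z z
    rw [h2] at h3
    exact X.red_persist rk z h3 h.choose_spec.2
  -- the cut set
  set S : Finset ℝ := univ.image X.lo ∪ univ.image X.hi ∪ univ.image (fun σ => X.dl σ + t0) ∪
    univ.image (fun σ => X.dl σ + X.l σ.1 - t0) ∪ univ.image X.dl ∪
    univ.image (fun σ => X.dl σ + X.l σ.1) with hS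
  obtain ⟨C, hSC, hC, hCA⟩ := X.cut_set hfin ht0pos S
  have hlo : ∀ i, X.lo i ∈ C := fun i => hSC (by simp [hS])
  have hhi : ∀ i, X.hi i ∈ C := fun i => hSC (by simp [hS])
  have ht1 : ∀ σ, X.dl σ + t0 ∈ C := fun σ => hSC (by
    simp only [hS, mem_union, mem_image, mem_univ, true_and]
    exact Or.inl (Or.inl (Or.inl (Or.inr ⟨σ, rfl⟩))))
  have ht2 : ∀ σ, X.dl σ + X.l σ.1 - t0 ∈ C := fun σ => hSC (by
    simp only [hS, mem_union, mem_image, mem_univ, true_and]
    exact Or.inl (Or.inl (Or.inr ⟨σ, rfl⟩)))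
  have hdlC : ∀ σ, X.dl σ ∈ C := fun σ => hSC (by
    simp only [hS, mem_union, mem_image, mem_univ, true_and]
    exact Or.inl (Or.inr ⟨σ, rfl⟩))
  have hdhC : ∀ σ, X.dl σ + X.l σ.1 ∈ C := fun σ => hSC (by
    simp only [hS, mem_union, mem_image, mem_univ, true_and]
    exact Or.inr ⟨σ, rfl⟩)
  obtain ⟨A, hA⟩ := X.exists_AD hX hρ ht0pos hC hlo hhi ht1 ht2
  haveI : Finite {α : ℝ × ℝ // X.IsArc C α} := by
    apply Set.Finite.to_subtype
    refine (C ×ˢ C).finite_toSet.subset ?_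
    intro α hα
    rw [mem_coe, mem_product]
    exact ⟨hα.1, hα.2.1⟩
  haveI : Fintype {α : ℝ × ℝ // X.IsArc C α} := Fintype.ofFinite _
  -- the count
  set V : ℝ := ∑ α ∈ univ.filter (fun α => A.rep α = α), (A.q α - A.p α) with hV
  have hcount : EZ.card * t0 ≤ V := by
    apply le_of_forall_pos_le_add
    intro ε hε
    set s : ℝ := min (t0 / 2) (ε / (EZ.card + 1)) with hs
    have hc0 : (0 : ℝ) < EZ.card + 1 := by positivity
    have hs0 : 0 < s := lt_min (by linarith) (div_pos hε hc0)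
    have hst : s < t0 := lt_of_le_of_lt (min_le_left _ _) (by linarith)
    obtain ⟨C', hSC', hC', -⟩ := X.cut_set hfin hs0 (C ∪ univ.image (fun σ => X.dl σ + s) ∪
      univ.image (fun σ => X.dl σ + X.l σ.1 - s))
    have hCC' : ∀ c ∈ C, c ∈ C' := fun c hc => hSC' (by simp [hc])
    have h1 := X.count_s hX hρ rk hrk hs0 hst ht0l hC' (fun σ => hSC' (by
      simp only [mem_union, mem_image, mem_univ, true_and]; exact Or.inl (Or.inr ⟨σ, rfl⟩)))
      (fun σ => hSC' (by
      simp only [mem_union, mem_image, mem_univ, true_and]; exact Or.inr ⟨σ, rfl⟩))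
      (fun σ => hCC' _ (ht1 σ)) (fun σ => hCC' _ (ht2 σ)) A
      (fun α => ⟨hCC' _ ((hA α).1 ▸ α.2.1), hCC' _ ((hA α).2 ▸ α.2.2.1)⟩) EZ
      (fun z hz t ht _ => by
        simp only [hEZ, mem_filter, mem_univ, true_and] at hz
        exact hz t ht)
    have h2 : EZ.card * s ≤ ε := by
      have h3 : s ≤ ε / (EZ.card + 1) := min_le_right _ _
      rw [le_div_iff₀ hc0] at h3
      have h4 : (0 : ℝ) ≤ EZ.card := by positivity
      nlinarith
    rw [← hV] at h1
    linarith
  -- the words of the redundant zippers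
  choose gz hgz1 hgz2 using hredz
  have hclosed : ∀ z (hz : z ∉ EZ),
      ρ ((sg (z.1, true))⁻¹ * lab (gz z hz)) = 1 := by
    intro z hz
    have hst : X.OK t0 (z.1, true) (X.zs z t0) := by
      refine ⟨?_, ?_⟩
      · rw [X.zs_fw]
      · rw [X.zs_bw]; linarith [ht0l z.1]
    have h1 := Sys.Arc.dir X hρ ht0pos (gz z hz ++ [inv (z.1, true)]) (X.zs z t0).1
      (X.zs z t0).2 ?_ ?_
    · have h2 := h1.2
      rw [lab_append] at h2
      simpa [lab, sg_inv] using h2
    · rw [X.valid_append]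
      refine ⟨X.valid_mono (X.allowed_OK rk z t0) _ _ (hgz1 z hz), ?_, trivial⟩
      have : X.run (gz z hz) ((X.zs z t0).1, (X.zs z t0).2) = X.mv (z.1, true) (X.zs z t0) :=
        hgz2 z hz
      rw [this]
      exact (X.OK_mv t0 _ _).2 hst
    · rw [X.run_append]
      have : X.run (gz z hz) ((X.zs z t0).1, (X.zs z t0).2) = X.mv (z.1, true) (X.zs z t0) :=
        hgz2 z hz
      rw [this]
      simp only [Sys.run, X.mv_inv]
  -- the relators
  set W1 : Finset (FreeGroup J) := ((univ : Finset ({α : ℝ × ℝ // X.IsArc C α} ×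
    {α : ℝ × ℝ // X.IsArc C α} × (J × Bool))).image
      (fun x => (lab (A.w x.2.1))⁻¹ * sg x.2.2 * lab (A.w x.1))).filter
      (fun g => g ∈ X.NN ρ t0 C) with hW1
  set W2 : Finset (FreeGroup J) := (univ : Finset {z // z ∉ EZ}).image
    (fun z => (sg (z.1.1, true))⁻¹ * lab (gz z.1 z.2)) with hW2
  refine ⟨{t0} ∪ ((C ×ˢ C).filter (fun x : ℝ × ℝ => x.1 < x.2)).image (fun x => x.2 - x.1) ∪
    (if 0 < V - EZ.card * t0 then {V - EZ.card * t0} else ∅), {t0}, W1 ∪ W2, ?_, ?_, ?_⟩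
  · intro f hf
    rw [mem_union, mem_union, mem_singleton, mem_image] at hf
    rcases hf with (hf | ⟨x, hx, hf⟩) | hf
    · rw [hf]; exact ht0pos
    · rw [mem_filter] at hx
      rw [← hf]
      linarith [hx.2]
    · split_ifs at hf with h
      · rw [mem_singleton] at hf
        rw [hf]; exact h
      · simp at hf
  · intro w hw
    rw [mem_union] at hw
    rcases hw with hw | hw
    · rw [hW1, mem_filter] at hw
      exact hw.2.1
    · rw [hW2, mem_image] at hw
      obtain ⟨z, -, hz⟩ := hw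
      rw [← hz]
      exact hclosed z.1 z.2
  intro L X' T hF hE
  have hLt0 : 0 < L t0 := hF t0 (by simp)
  have ht0L : t0 ∈ Lam L := hE t0 (by simp)
  have hmono : ∀ c ∈ C, ∀ d ∈ C, c < d → L c < L d := by
    intro c hc d hd hcd
    have h1 : d - c ∈ ({t0} ∪ ((C ×ˢ C).filter (fun x : ℝ × ℝ => x.1 < x.2)).image
        (fun x => x.2 - x.1) ∪
        (if 0 < V - EZ.card * t0 then {V - EZ.card * t0} else ∅) : Finset ℝ) := by
      rw [mem_union, mem_union, mem_image]
      refine Or.inl (Or.inr ⟨(c, d), ?_, rfl⟩)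
      rw [mem_filter, mem_product]
      exact ⟨⟨hc, hd⟩, hcd⟩
    have h2 := hF _ h1
    rw [map_sub] at h2
    linarith
  have hCL : ∀ c ∈ C, c ∈ Lam L := by
    refine hCA (Lam L) T.mem_a T.mem_b T.mem_l ?_
    intro x hx
    simp only [hS, mem_union, mem_image, mem_univ, true_and] at hx
    rcases hx with ((((⟨i, rfl⟩ | ⟨i, rfl⟩) | ⟨σ, rfl⟩) | ⟨σ, rfl⟩) | ⟨σ, rfl⟩) | ⟨σ, rfl⟩
    · exact T.mem_lo i
    · exact T.mem_hi i
    · exact (Lam L).add_mem (T.mem_dl σ) ht0L
    · exact (Lam L).sub_mem ((Lam L).add_mem (T.mem_dl σ) (T.mem_l _)) ht0L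
    · exact T.mem_dl σ
    · exact (Lam L).add_mem (T.mem_dl σ) (T.mem_l _)
  set t0' : ℤ := Lz L t0 with ht0'
  obtain ⟨A', hA'1, hA'2, hA'3⟩ := exists_AD_int T hCL hmono ht0L hC hlo hhi ht1 ht2 A hA
  have ht0'L : (t0' : ℚ) = L t0 := Lz_cast ht0L
  have ht0'pos : 0 < t0' := by
    have : (0 : ℚ) < t0' := by rw [ht0'L]; exact hLt0
    exact_mod_cast this
  have ht0'e : Even t0' := Lz_even ht0L
  have hdlz : ∀ σ, Lz L (X.dl σ) = X'.dl σ := fun σ => by rw [Lz_eq (T.mem_dl σ), T.dl]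
  have hdhz : ∀ σ, Lz L (X.dl σ + X.l σ.1) = X'.dl σ + X'.l σ.1 := fun σ => by
    rw [Lz_eq ((Lam L).add_mem (T.mem_dl σ) (T.mem_l _))]
    push_cast
    rw [map_add, T.dl, T.l]
  have hloL : ∀ i, Lz L (X.lo i) = X'.lo i := fun i => by
    rw [Lz_eq (T.mem_lo i), T.lo]
  have hhiL : ∀ i, Lz L (X.hi i) = X'.hi i := fun i => by
    rw [Lz_eq (T.mem_hi i), T.hi]
  have hl' : ∀ j, 2 * t0' < X'.l j := by
    intro j
    have h1 := (Tp.lz_lt hCL hmono (ht1 (j, true)) (ht2 (j, true))).2 (by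
      have := ht0l j
      simp only
      linarith)
    rw [T.lz_dl1 ht0L, T.lz_dl2 ht0L] at h1
    simp only at h1
    linarith
  have hdc : ∀ σ, X'.dc σ = X.dc σ := fun σ => by simp only [Sys.dc, T.ca, T.cb]
  have hGood : X'.Good := by
    refine ⟨fun j => by linarith [hl' j], ?_, ?_, ?_⟩
    · intro i
      rw [← hloL, ← hhiL, Tp.lz_lt hCL hmono (hlo i) (hhi i)]
      exact hX.lt i
    · intro i i' h
      rw [← hloL, ← hhiL, ← hloL, ← hhiL, Tp.lz_lt hCL hmono (hhi i) (hlo i'),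
        Tp.lz_lt hCL hmono (hhi i') (hlo i)]
      exact hX.disj i i' h
    · intro σ
      rw [hdc, ← hloL, ← hhiL, ← hdlz, Tp.lz_le hCL hmono (hlo _) (hdlC σ), hdlz, ← hdhz,
        Tp.lz_le hCL hmono (hdhC σ) (hhi _)]
      exact hX.dom σ
  have hle : ∀ j, Even (X'.l j) := T.el
  have hpe : ∀ α, Even (A'.p α) ∧ Even (A'.q α) := by
    intro α
    rw [(hA'1 α).1, (hA'1 α).2]
    exact ⟨Lz_even (hCL _ ((hA α).1 ▸ α.2.1)), Lz_even (hCL _ ((hA α).2 ▸ α.2.2.1))⟩
  haveI : Nonempty {α : ℝ × ℝ // X.IsArc C α} := by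
    obtain ⟨i⟩ := ‹Nonempty I›
    have h1 := hGood.lt i
    obtain ⟨m, hm⟩ := T.elo i
    obtain ⟨n, hn⟩ := T.ehi i
    have hodd : ¬ Even (X'.lo i + 1) := by
      rw [Int.not_even_iff_odd]
      exact (T.elo i).add_odd odd_one
    obtain ⟨α, -⟩ := A'.cover (X'.lo i + 1) i (by omega) (by omega) (fun α =>
      ⟨fun h => hodd (h ▸ (hpe α).1), fun h => hodd (h ▸ (hpe α).2)⟩)
    exact ⟨α⟩
  set θ := QuotientGroup.mk' (Subgroup.normalClosure ((W1 ∪ W2 : Finset (FreeGroup J)) :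
    Set (FreeGroup J))) with hθ
  have hθW : ∀ w ∈ W1 ∪ W2, θ w = 1 := by
    intro w hw
    rw [hθ, QuotientGroup.mk'_apply, QuotientGroup.eq_one_iff]
    exact Subgroup.subset_normalClosure hw
  have hzsC : ∀ z, (X.zs z t0).1 ∈ C := by
    intro z
    have k1 := ht1 (z.1, true)
    have k2 := ht2 (z.1, true)
    simp only [Sys.dl, if_true] at k1 k2
    unfold Sys.zs
    dsimp only
    split_ifs
    · exact k2
    · exact k1
  have hzs' : ∀ z, X'.zs z t0' = (Lz L (X.zs z t0).1, z.2) := by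
    intro z
    have k1 := T.lz_dl1 ht0L (z.1, true)
    have k2 := T.lz_dl2 ht0L (z.1, true)
    simp only [Sys.dl, if_true] at k1 k2
    unfold Sys.zs
    dsimp only
    split_ifs
    · rw [k2]
    · rw [k1]
  have hzs2 : ∀ z, (X.zs z t0) = ((X.zs z t0).1, z.2) := fun z => rfl
  have hred' : ∀ z (hz : z ∉ EZ), X'.Valid (X'.Allowed rk z t0') (gz z hz) (X'.zs z t0') ∧
      X'.run (gz z hz) (X'.zs z t0') = X'.mv (z.1, true) (X'.zs z t0') := by
    intro z hz
    have h1 := hgz1 z hz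
    have h2 := hgz2 z hz
    rw [hzs2 z] at h1
    have h3 := T.valid_allowed hCL hmono ht0L hC ht1 ht2 rk z (gz z hz) _ _ (hzsC z) h1
    have h4 := T.valid_run hCL hmono ht0L hC ht1 ht2 (gz z hz) _ _ (hzsC z)
      (X.valid_mono (X.allowed_OK rk z t0) _ _ h1)
    rw [hzs' z]
    refine ⟨h3, ?_⟩
    rw [h4.2.2, T.mv (z.1, true) (hCL _ (hzsC z)) z.2]
    rw [← hzs2 z, h2]
  refine ⟨hGood, ?_, ?_⟩
  · -- the edge with cyclic stabiliser
    obtain ⟨e, α, e1, e2, e3, e4, c, hc⟩ := X'.int_cyc θ rk ht0'pos ht0'e hl' T.edl hle hGood.dom A'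
      hpe (fun α β σ h => by
        apply hθW
        rw [mem_union]
        left
        rw [hW1, mem_filter, mem_image]
        rw [hA'3] at h ⊢
        exact ⟨⟨(α, β, σ), mem_univ _, rfl⟩, h⟩) EZ (fun z hz => by
        obtain ⟨h1, h2⟩ := hred' z hz
        refine ⟨gz z hz, h1, h2, ?_⟩
        have h3 : θ ((sg (z.1, true))⁻¹ * lab (gz z hz)) = 1 := by
          apply hθW
          rw [mem_union]
          right
          rw [hW2, mem_image]
          exact ⟨⟨z, hz⟩, mem_univ _, rfl⟩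
        rw [map_mul, map_inv, inv_mul_eq_one] at h3
        exact h3.symm) (by
        have h1 : ((∑ α ∈ univ.filter (fun α => A'.rep α = α), (A'.q α - A'.p α) : ℤ) : ℚ)
            = L V := by
          rw [hV, hA'2, map_sum]
          push_cast
          refine sum_congr rfl fun α _ => ?_
          rw [(hA'1 α).1, (hA'1 α).2, map_sub, Lz_cast (hCL _ ((hA α).2 ▸ α.2.2.1)),
            Lz_cast (hCL _ ((hA α).1 ▸ α.2.1))]
        have h2 : (EZ.card : ℚ) * L t0 ≤ L V := by
          have h3 : L (V - EZ.card * t0) = L V - EZ.card * L t0 := by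
            rw [map_sub]
            congr 1
            have : ((EZ.card : ℝ) * t0) = EZ.card • t0 := by rw [nsmul_eq_mul]
            rw [this, map_nsmul, nsmul_eq_mul]
          rcases (sub_nonneg.2 hcount).lt_or_eq with h | h
          · have h4 := hF (V - EZ.card * t0) (by
              rw [mem_union, if_pos h, mem_singleton]
              exact Or.inr rfl)
            rw [h3] at h4
            linarith
          · rw [← h, map_zero] at h3
            linarith
        have h5 : (((EZ.card : ℤ) * t0' : ℤ) : ℚ) ≤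
            ((∑ α ∈ univ.filter (fun α => A'.rep α = α), (A'.q α - A'.p α) : ℤ) : ℚ) := by
          rw [h1]
          push_cast
          rw [ht0'L]
          exact h2
        exact_mod_cast h5)
    obtain ⟨i, i1, i2⟩ := A'.comp α
    exact ⟨e, i, by omega, by omega, e2, c, hc⟩
  · -- the relators are elliptic
    intro w hw
    rw [mem_union] at hw
    rcases hw with hw | hw
    · rw [hW1, mem_filter] at hw
      obtain ⟨-, -, γ, α, hα, h1, h2, h3, h4⟩ := hw
      have k1 := T.valid_run hCL hmono ht0L hC ht1 ht2 γ _ _ hα.1 h2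
      have k2 := T.valid_run hCL hmono ht0L hC ht1 ht2 γ _ _ hα.2.1 h3
      have hlt := (Tp.lz_lt hCL hmono hα.1 hα.2.1).2 hα.2.2.1
      obtain ⟨m, hm⟩ := Lz_even (hCL _ hα.1)
      obtain ⟨n, hn⟩ := Lz_even (hCL _ hα.2.1)
      obtain ⟨i, i1, i2⟩ := hα.2.2.2.1
      have i1' := (Tp.lz_le hCL hmono (hlo i) hα.1).2 i1
      have i2' := (Tp.lz_le hCL hmono hα.2.1 (hhi i)).2 i2
      rw [hloL] at i1'
      rw [hhiL] at i2'
      have hsh : ((Lz L α.1 + 1, true) : ℤ × Bool) = sh 1 (Lz L α.1, true) := by simp [sh]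
      refine ⟨γ, Lz L α.1 + 1, true, i, by omega, by omega, ?_, ?_, ?_, h1⟩
      · exact (Lz_even (hCL _ hα.1)).add_odd odd_one
      · rw [hsh]
        refine X'.valid_mono (fun σ s hs => X'.OK_mono ht0'pos.le σ s hs) _ _ ?_
        refine X'.valid_sh_mono (Lz L α.2 - Lz L α.1) 1 (by omega) (by omega) _ _ k1.1 ?_
        have : sh (Lz L α.2 - Lz L α.1) (Lz L α.1, true) = (Lz L α.2, true) := by simp [sh]
        rw [this]
        exact k2.1
      · rw [hsh, X'.run_sh, k1.2.2, h4]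
    · rw [hW2, mem_image] at hw
      obtain ⟨⟨z, hz⟩, -, hw⟩ := hw
      simp only at hw
      obtain ⟨h1, h2⟩ := hred' z hz
      have h3 : (1 : ℤ) ≤ t0' := by omega
      have h4 := X'.allowed_sh rk z h3 _ _ h1
      rw [← X'.zs_sh z t0' 1] at h4
      have h5 : X'.run (gz z hz) (X'.zs z 1) = X'.mv (z.1, true) (X'.zs z 1) := by
        rw [X'.zs_sh z t0' 1, X'.run_sh, h2, X'.mv_sh]
      have hok1 : X'.OK 0 (z.1, true) (X'.zs z 1) := by
        refine ⟨?_, ?_⟩
        · rw [X'.zs_fw]; norm_num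
        · rw [X'.zs_bw]; linarith [hl' z.1]
      have hdom := hGood.dom (z.1, true)
      have hlz := hl' z.1
      simp only [Sys.dl, if_true] at hdom
      have hz1 : (X'.zs z 1) = ((X'.zs z 1).1, z.2) := rfl
      refine ⟨gz z hz ++ [inv (z.1, true)], (X'.zs z 1).1, z.2, X'.dc (z.1, true), ?_, ?_, ?_, ?_,
        ?_, ?_⟩
      · unfold Sys.zs
        dsimp only
        split_ifs <;> omega
      · unfold Sys.zs
        dsimp only
        split_ifs <;> omega
      · have ha := T.ea z.1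
        unfold Sys.zs
        dsimp only
        split_ifs
        · exact (ha.add (hle _)).sub_odd odd_one
        · exact ha.add_odd odd_one
      · rw [← hz1, X'.valid_append]
        refine ⟨?_, ?_, trivial⟩
        · refine X'.valid_mono ?_ _ _ h4
          rintro σ s ⟨s1, s2⟩
          refine ⟨?_, by omega⟩
          rcases s2 with s2 | ⟨s2, -⟩ <;> omega
        · rw [h5]
          exact (X'.OK_mv 0 _ _).2 hok1
      · rw [← hz1, X'.run_append, h5]
        simp only [Sys.run, X'.mv_inv]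
      · rw [← hw, lab_append]
        simp [lab, sg_inv]

end Pool.Agent.FrZ
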