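import Pool.Agent.Lib.MP_305fdd_al.Fr.Z.Defs

/-!
# Finite systems of interval isometries: basic lemmas, persistence
-/

set_option autoImplicit false
set_option linter.unusedSectionVars false
set_option linter.unusedVariables false
set_option linter.unnecessarySeqFocus false

namespace Pool.Agent.FrZ

variable {J I R : Type}

/-- move a state in its own direction -/
def sh [AddCommGroup R] (c : R) (s : R × Bool) : R × Bool := (if s.2 then s.1 + c else s.1 - c, s.2)

@[simp] theorem inv_inv (σ : J × Bool) : inv (inv σ) = σ := by simp [inv]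

@[simp] theorem inv_fst (σ : J × Bool) : (inv σ).1 = σ.1 := rfl

theorem sg_inv (σ : J × Bool) : sg (inv σ) = (sg σ)⁻¹ := by
  rcases σ with ⟨j, b⟩
  cases b <;> simp [sg, inv]

theorem lab_append (γ δ : List (J × Bool)) : lab (γ ++ δ) = lab δ * lab γ := by
  induction γ with
  | nil => simp [lab]
  | cons σ γ ih => simp [lab, ih, mul_assoc]

theorem rev_cons (σ : J × Bool) (γ : List (J × Bool)) : rev (σ :: γ) = rev γ ++ [inv σ] := by
  simp [rev]

theorem rev_append (γ δ : List (J × Bool)) : rev (γ ++ δ) = rev δ ++ rev γ := by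
  simp [rev]

theorem rev_rev (γ : List (J × Bool)) : rev (rev γ) = γ := by
  induction γ with
  | nil => rfl
  | cons σ γ ih => rw [rev_cons, rev_append, ih]; simp [rev]

theorem lab_rev (γ : List (J × Bool)) : lab (rev γ) = (lab γ)⁻¹ := by
  induction γ with
  | nil => simp [rev, lab]
  | cons σ γ ih =>
    rw [rev_cons, lab_append, ih]
    simp [lab, sg_inv]

namespace Sys

section Grp
variable [AddCommGroup R] [LinearOrder R] (X : Sys J I R)

theorem run_append (γ δ : List (J × Bool)) (s : R × Bool) :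
    X.run (γ ++ δ) s = X.run δ (X.run γ s) := by
  induction γ generalizing s with
  | nil => rfl
  | cons σ γ ih => simp [run, ih]

theorem valid_append (P : J × Bool → R × Bool → Prop) (γ δ : List (J × Bool)) (s : R × Bool) :
    X.Valid P (γ ++ δ) s ↔ X.Valid P γ s ∧ X.Valid P δ (X.run γ s) := by
  induction γ generalizing s with
  | nil => simp [Valid, run]
  | cons σ γ ih => simp [Valid, run, ih, and_assoc]

theorem valid_mono {P Q : J × Bool → R × Bool → Prop} (h : ∀ σ s, P σ s → Q σ s)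
    (γ : List (J × Bool)) (s : R × Bool) (hv : X.Valid P γ s) : X.Valid Q γ s := by
  induction γ generalizing s with
  | nil => trivial
  | cons σ γ ih => exact ⟨h _ _ hv.1, ih _ hv.2⟩

theorem run_snd (γ : List (J × Bool)) (x y : R) (d : Bool) :
    (X.run γ (x, d)).2 = (X.run γ (y, d)).2 := by
  induction γ generalizing x y d with
  | nil => rfl
  | cons σ γ ih => exact ih _ _ _

theorem run_fst (γ : List (J × Bool)) (x : R) (d d' : Bool) :
    (X.run γ (x, d)).1 = (X.run γ (x, d')).1 := by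
  induction γ generalizing x d d' with
  | nil => rfl
  | cons σ γ ih => exact ih _ _ _

end Grp

section Ring
variable [CommRing R] [LinearOrder R] [IsStrictOrderedRing R] (X : Sys J I R)

theorem mvx_inv (σ : J × Bool) (x : R) : X.mvx (inv σ) (X.mvx σ x) = x := by
  simp only [mvx, inv_inv, inv_fst]
  split_ifs <;> ring

theorem mv_inv (σ : J × Bool) (s : R × Bool) : X.mv (inv σ) (X.mv σ s) = s := by
  rcases s with ⟨x, d⟩
  simp only [mv, mvx_inv, inv_fst, Prod.mk.injEq, true_and]
  cases d <;> cases X.fl σ.1 <;> rfl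

theorem mv_inv' (σ : J × Bool) (s : R × Bool) : X.mv σ (X.mv (inv σ) s) = s := by
  simpa using X.mv_inv (inv σ) s

theorem fw_mv (σ : J × Bool) (s : R × Bool) : X.fw (inv σ) (X.mv σ s) = X.fw σ s := by
  rcases s with ⟨x, d⟩
  cases d <;> cases h : X.fl σ.1 <;> simp [fw, mv, mvx, h] <;> ring

theorem bw_mv (σ : J × Bool) (s : R × Bool) : X.bw (inv σ) (X.mv σ s) = X.bw σ s := by
  rcases s with ⟨x, d⟩
  cases d <;> cases h : X.fl σ.1 <;> simp [bw, mv, mvx, h] <;> ring

theorem zip_mv (σ : J × Bool) (s : R × Bool) : X.zip (inv σ) (X.mv σ s).2 = X.zip σ s.2 := by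
  rcases s with ⟨x, d⟩
  rcases σ with ⟨j, b⟩
  cases d <;> cases b <;> cases h : X.fl j <;> simp [zip, mv, inv, h]

theorem mv_sh (c : R) (σ : J × Bool) (s : R × Bool) : X.mv σ (sh c s) = sh c (X.mv σ s) := by
  rcases s with ⟨x, d⟩
  cases d <;> cases h : X.fl σ.1 <;> simp [sh, mv, mvx, h] <;> ring

theorem fw_sh (c : R) (σ : J × Bool) (s : R × Bool) : X.fw σ (sh c s) = X.fw σ s - c := by
  rcases s with ⟨x, d⟩
  cases d <;> simp [sh, fw] <;> ring

theorem bw_sh (c : R) (σ : J × Bool) (s : R × Bool) : X.bw σ (sh c s) = X.bw σ s + c := by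
  rcases s with ⟨x, d⟩
  cases d <;> simp [sh, bw] <;> ring

theorem run_sh (c : R) (γ : List (J × Bool)) (s : R × Bool) :
    X.run γ (sh c s) = sh c (X.run γ s) := by
  induction γ generalizing s with
  | nil => rfl
  | cons σ γ ih => rw [run, run, mv_sh, ih]

theorem fw_add_bw (σ : J × Bool) (s : R × Bool) : X.fw σ s + X.bw σ s = X.l σ.1 := by
  rcases s with ⟨x, d⟩
  cases d <;> simp [fw, bw]

theorem fw_not (σ : J × Bool) (x : R) (d : Bool) : X.fw σ (x, !d) = X.bw σ (x, d) := by
  cases d <;> simp [fw, bw]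

theorem bw_not (σ : J × Bool) (x : R) (d : Bool) : X.bw σ (x, !d) = X.fw σ (x, d) := by
  cases d <;> simp [fw, bw]

theorem OK_iff (t : R) (σ : J × Bool) (x : R) (d : Bool) :
    X.OK t σ (x, d) ↔ X.dl σ + t ≤ x ∧ x + t ≤ X.dl σ + X.l σ.1 := by
  cases d <;> simp only [OK, fw, bw, if_true, Bool.false_eq_true, if_false] <;>
    constructor <;> rintro ⟨h1, h2⟩ <;> constructor <;> linarith

theorem OK_dir (t : R) (σ : J × Bool) (x : R) (d d' : Bool) (h : X.OK t σ (x, d)) :
    X.OK t σ (x, d') := by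
  rw [OK_iff] at *; exact h

theorem OK_mv (t : R) (σ : J × Bool) (s : R × Bool) :
    X.OK t (inv σ) (X.mv σ s) ↔ X.OK t σ s := by
  simp only [OK, fw_mv, bw_mv]

theorem valid_OK_dir (t : R) (γ : List (J × Bool)) (x : R) (d d' : Bool)
    (h : X.Valid (X.OK t) γ (x, d)) : X.Valid (X.OK t) γ (x, d') := by
  induction γ generalizing x d d' with
  | nil => trivial
  | cons σ γ ih => exact ⟨X.OK_dir _ _ _ _ _ h.1, ih _ _ _ h.2⟩

theorem run_rev (γ : List (J × Bool)) (s : R × Bool) : X.run (rev γ) (X.run γ s) = s := by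
  induction γ generalizing s with
  | nil => rfl
  | cons σ γ ih =>
    rw [rev_cons, run_append]
    simp only [run]
    rw [ih, mv_inv]

theorem valid_rev {P : J × Bool → R × Bool → Prop}
    (hP : ∀ σ s, P σ s → P (inv σ) (X.mv σ s)) (γ : List (J × Bool)) (s : R × Bool)
    (h : X.Valid P γ s) : X.Valid P (rev γ) (X.run γ s) := by
  induction γ generalizing s with
  | nil => trivial
  | cons σ γ ih =>
    rw [rev_cons, valid_append, run, run_rev]
    exact ⟨ih _ h.2, hP _ _ h.1, trivial⟩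

theorem allowed_mv (rk : J × Bool → ℕ) (z : J × Bool) (t : R) (σ : J × Bool) (s : R × Bool) :
    X.Allowed rk z t (inv σ) (X.mv σ s) ↔ X.Allowed rk z t σ s := by
  simp only [Allowed, fw_mv, bw_mv, zip_mv]

theorem OK_mono {t t' : R} (h : t' ≤ t) (σ : J × Bool) (s : R × Bool) (hs : X.OK t σ s) :
    X.OK t' σ s := ⟨h.trans hs.1, h.trans hs.2⟩

theorem valid_sh_mono {t : R} (ℓ c : R) (hc : 0 ≤ c) (hc' : c ≤ ℓ) (γ : List (J × Bool))
    (s : R × Bool) (h : X.Valid (X.OK t) γ s) (h' : X.Valid (X.OK t) γ (sh ℓ s)) :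
    X.Valid (X.OK t) γ (sh c s) := by
  induction γ generalizing s with
  | nil => trivial
  | cons σ γ ih =>
    obtain ⟨h1, h2⟩ := h
    obtain ⟨h3, h4⟩ := h'
    refine ⟨?_, ?_⟩
    · simp only [OK, fw_sh, bw_sh] at h1 h3 ⊢
      constructor <;> linarith [h1.1, h1.2, h3.1, h3.2]
    · rw [mv_sh] at h4 ⊢
      exact ih _ h2 h4

/-- (1.1) margin -/
theorem valid_sh_margin {t c : R} (hc : |c| ≤ t) (γ : List (J × Bool))
    (s : R × Bool) (h : X.Valid (X.OK t) γ s) : X.Valid (X.OK (t - |c|)) γ (sh c s) := by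
  induction γ generalizing s with
  | nil => trivial
  | cons σ γ ih =>
    obtain ⟨h1, h2⟩ := h
    refine ⟨?_, ?_⟩
    · simp only [OK, fw_sh, bw_sh] at h1 ⊢
      constructor <;> linarith [h1.1, h1.2, le_abs_self c, neg_abs_le c]
    · rw [mv_sh]
      exact ih _ h2

theorem zs_sh (z : J × Bool) (t t' : R) : X.zs z t' = sh (t - t') (X.zs z t) := by
  rcases z with ⟨j, d⟩
  cases d <;> simp [zs, sh] <;> ring

theorem zs_fw (z : J × Bool) (t : R) : X.fw (z.1, true) (X.zs z t) = t := by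
  rcases z with ⟨j, d⟩
  cases d <;> simp [zs, fw, dl]

theorem zs_bw (z : J × Bool) (t : R) : X.bw (z.1, true) (X.zs z t) = X.l z.1 - t := by
  rcases z with ⟨j, d⟩
  cases d <;> simp [zs, bw, dl] <;> ring

theorem zs_zip (z : J × Bool) (t : R) : X.zip (z.1, true) (X.zs z t).2 = z := by
  rcases z with ⟨j, d⟩
  simp [zs, zip]

/-- (2.1) persistence, with the strict inequality for the backward distance -/
theorem allowed_sh (rk : J × Bool → ℕ) (z : J × Bool) {t t' : R} (h : t' ≤ t)
    (γ : List (J × Bool)) (s : R × Bool) (hv : X.Valid (X.Allowed rk z t) γ s) :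
    X.Valid (fun σ u => t + (t - t') ≤ X.bw σ u ∧
      (t' < X.fw σ u ∨ (t' = X.fw σ u ∧ rk (X.zip σ u.2) < rk z))) γ (sh (t - t') s) := by
  induction γ generalizing s with
  | nil => trivial
  | cons σ γ ih =>
    obtain ⟨⟨h1, h2⟩, h3⟩ := hv
    refine ⟨⟨?_, ?_⟩, ?_⟩
    · rw [bw_sh]; linarith
    · rw [fw_sh]
      rcases h2 with h2 | ⟨h2, h4⟩
      · left; linarith
      · right; exact ⟨by linarith, h4⟩
    · rw [mv_sh]
      exact ih _ h3

theorem red_persist (rk : J × Bool → ℕ) (z : J × Bool) {t t' : R} (h : t' ≤ t)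
    (hr : X.Red rk z t) : X.Red rk z t' := by
  obtain ⟨γ, hv, he⟩ := hr
  refine ⟨γ, ?_, ?_⟩
  · rw [X.zs_sh z t t']
    refine X.valid_mono ?_ _ _ (X.allowed_sh rk z h γ _ hv)
    rintro σ s ⟨h1, h2⟩
    exact ⟨by linarith, h2⟩
  · rw [X.zs_sh z t t', run_sh, he, mv_sh]

end Ring

end Sys

end Pool.Agent.FrZ
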