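import Pool.Agent.Lib.MP_305fdd_al.Fr.Z.Basic

/-!
# Arc decompositions invariant under an eroded system, with transporters
-/

set_option autoImplicit false
set_option linter.unusedSectionVars false
set_option linter.unusedVariables false
set_option linter.unnecessarySeqFocus false

namespace Pool.Agent.FrZ

variable {J I R : Type} [CommRing R] [LinearOrder R] [IsStrictOrderedRing R]

/-- A decomposition of the components into arcs `[p α, q α]` which is invariant under the system
eroded by `t`, with representatives `rep α` and words `w α` from `rep α` to `α`. -/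
structure AD (X : Sys J I R) (t : R) (N : Set (FreeGroup J)) (ι : Type) where
  p : ι → R
  q : ι → R
  rep : ι → ι
  w : ι → List (J × Bool)
  lt : ∀ α, p α < q α
  rep_rep : ∀ α, rep (rep α) = rep α
  w_rep : ∀ α, w (rep α) = []
  w_p : ∀ α, X.Valid (X.OK t) (w α) (p (rep α), true)
  w_q : ∀ α, X.Valid (X.OK t) (w α) (q (rep α), true)
  len : ∀ α, q (rep α) - p (rep α) = q α - p α
  s_eq : ∀ α, X.run (w α) (p (rep α), true) = (p α, true) ∨
    X.run (w α) (p (rep α), true) = (q α, false)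
  comp : ∀ α, ∃ i, X.lo i ≤ p α ∧ q α ≤ X.hi i
  cover : ∀ x i, X.lo i < x → x < X.hi i → (∀ α, x ≠ p α ∧ x ≠ q α) → ∃ α, p α < x ∧ x < q α
  uniq : ∀ α β x, p α < x → x < q α → p β < x → x < q β → α = β
  step : ∀ α σ, (X.dl σ + t ≤ p α ∧ q α ≤ X.dl σ + X.l σ.1 - t) ∨
    q α ≤ X.dl σ + t ∨ X.dl σ + X.l σ.1 - t ≤ p α
  deep : ∀ α σ, X.dl σ + t ≤ p α → q α ≤ X.dl σ + X.l σ.1 - t →
    ∃ β, rep β = rep α ∧
      X.run (w β) (p (rep β), true) = X.mv σ (X.run (w α) (p (rep α), true)) ∧
      (lab (w β))⁻¹ * sg σ * lab (w α) ∈ N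

namespace AD

variable {X : Sys J I R} {t : R} {N : Set (FreeGroup J)} {ι : Type} (A : AD X t N ι)

/-- the state at the start of the arc -/
def s (α : ι) : R × Bool := X.run (A.w α) (A.p (A.rep α), true)

/-- the parameter of a point of the arc -/
def par (α : ι) (x : R) : R := if (A.s α).2 then x - (A.s α).1 else (A.s α).1 - x

theorem s_eq' (α : ι) : A.s α = (A.p α, true) ∨ A.s α = (A.q α, false) := A.s_eq α

theorem s_rep (α : ι) : A.s (A.rep α) = (A.p (A.rep α), true) := by
  unfold s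
  rw [A.w_rep, A.rep_rep]
  rfl

theorem par_mem (α : ι) (x : R) (h1 : A.p α < x) (h2 : x < A.q α) :
    0 < A.par α x ∧ A.par α x < A.q (A.rep α) - A.p (A.rep α) := by
  rw [A.len]
  unfold par
  rcases A.s_eq' α with h | h <;> rw [h] <;> simp only [if_true, Bool.false_eq_true, if_false] <;>
    constructor <;> linarith

theorem sh_par (α : ι) (x : R) : sh (A.par α x) (A.s α) = (x, (A.s α).2) := by
  unfold par
  rcases A.s_eq' α with h | h <;> rw [h] <;> simp [sh]

theorem par_unique (α : ι) (x c : R) (h : (sh c (A.s α)).1 = x) : A.par α x = c := by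
  unfold par
  rcases A.s_eq' α with h' | h' <;> rw [h'] at h ⊢ <;> simp [sh] at h ⊢ <;> linarith

/-- the point of the representative which corresponds to a point of the arc -/
def pt (α : ι) (x : R) : R := A.p (A.rep α) + A.par α x

theorem pt_mem (α : ι) (x : R) (h1 : A.p α < x) (h2 : x < A.q α) :
    A.p (A.rep α) < A.pt α x ∧ A.pt α x < A.q (A.rep α) := by
  have := A.par_mem α x h1 h2
  unfold pt
  constructor <;> linarith [this.1, this.2]

theorem pt_rep (α : ι) (x : R) : A.pt (A.rep α) x = x := by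
  unfold pt par
  rw [A.s_rep, A.rep_rep]
  simp

theorem pt_st (α : ι) (x : R) : (A.pt α x, true) = sh (A.par α x) (A.p (A.rep α), true) := by
  simp [pt, sh]

theorem w_run (α : ι) (x : R) : X.run (A.w α) (A.pt α x, true) = (x, (A.s α).2) := by
  rw [pt_st, X.run_sh]
  exact A.sh_par α x

theorem w_valid (α : ι) (x : R) (h1 : A.p α < x) (h2 : x < A.q α) :
    X.Valid (X.OK t) (A.w α) (A.pt α x, true) := by
  rw [pt_st]
  have := A.par_mem α x h1 h2
  refine X.valid_sh_mono (A.q (A.rep α) - A.p (A.rep α)) _ this.1.le this.2.le _ _ (A.w_p α) ?_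
  have : sh (A.q (A.rep α) - A.p (A.rep α)) (A.p (A.rep α), true) = (A.q (A.rep α), true) := by
    simp [sh]
  rw [this]
  exact A.w_q α

/-- deep steps preserve the coordinates -/
theorem deep_pt (α : ι) (σ : J × Bool) (h1 : X.dl σ + t ≤ A.p α)
    (h2 : A.q α ≤ X.dl σ + X.l σ.1 - t) (x : R) (hx1 : A.p α < x) (hx2 : x < A.q α) :
    ∃ β, A.rep β = A.rep α ∧ A.p β < X.mvx σ x ∧ X.mvx σ x < A.q β ∧
      A.pt β (X.mvx σ x) = A.pt α x ∧ (lab (A.w β))⁻¹ * sg σ * lab (A.w α) ∈ N := by
  obtain ⟨β, hβ, hs, hN⟩ := A.deep α σ h1 h2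
  have hs' : A.s β = X.mv σ (A.s α) := hs
  have hpar : A.par β (X.mvx σ x) = A.par α x := by
    apply A.par_unique
    rw [hs', ← X.mv_sh, A.sh_par]
    rfl
  have hmem := A.par_mem α x hx1 hx2
  refine ⟨β, hβ, ?_, ?_, ?_, hN⟩
  · have h3 := A.sh_par β (X.mvx σ x)
    rw [hpar] at h3
    have h4 := A.len β
    rw [hβ] at h4
    rcases A.s_eq' β with h | h <;> rw [h] at h3 <;> simp [sh] at h3 <;>
      linarith [hmem.1, hmem.2]
  · have h3 := A.sh_par β (X.mvx σ x)
    rw [hpar] at h3
    have h4 := A.len β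
    rw [hβ] at h4
    rcases A.s_eq' β with h | h <;> rw [h] at h3 <;> simp [sh] at h3 <;>
      linarith [hmem.1, hmem.2]
  · unfold pt
    rw [hpar, hβ]

end AD

end Pool.Agent.FrZ
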