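import Mathlib

/-!
# Two lemmas about finite multigraphs: weights of forests, labels of closed walks
-/

set_option autoImplicit false
set_option linter.unusedSectionVars false
set_option linter.unusedVariables false

open Finset

namespace Pool.Agent.FrZ

/-- If every edge is not redundant (its ends are not related by the edges before it) then the total
weight of the edges is at most the total weight of the vertices. -/
theorem uf_weights {V E α : Type} [DecidableEq V] [DecidableEq E] [LinearOrder α]
    (VV : Finset V) (EE : Finset E) (key : E → α) (hkey : Set.InjOn key (EE : Set E))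
    (u v : E → V) (hu : ∀ e ∈ EE, u e ∈ VV) (hv : ∀ e ∈ EE, v e ∈ VV)
    (μ : V → ℝ) (hμ : ∀ x ∈ VV, 0 ≤ μ x) (ν : E → ℝ)
    (hνu : ∀ e ∈ EE, ν e = μ (u e)) (hνv : ∀ e ∈ EE, ν e = μ (v e)) (S : E → V → V → Prop)
    (hS : ∀ e ∈ EE, Equivalence (S e))
    (h1 : ∀ e ∈ EE, ∀ e' ∈ EE, key e' < key e → S e (u e') (v e'))
    (h2 : ∀ e ∈ EE, ¬ S e (u e) (v e)) :
    ∑ e ∈ EE, ν e ≤ ∑ x ∈ VV, μ x := by
  have key1 : ∀ s : Finset E, s ⊆ EE → ∃ g : V → V, (∀ x ∈ VV, g x ∈ VV) ∧
      (∀ x ∈ VV, g (g x) = g x) ∧ (∀ x ∈ VV, μ (g x) = μ x) ∧
      (∀ T : V → V → Prop, Equivalence T → (∀ e ∈ s, T (u e) (v e)) → ∀ x ∈ VV, T x (g x)) ∧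
      ∑ e ∈ s, ν e + ∑ x ∈ VV.filter (fun x => g x = x), μ x = ∑ x ∈ VV, μ x := by
    intro s
    induction s using Finset.induction_on_max_value key with
    | empty =>
      intro _
      refine ⟨id, fun x hx => hx, fun x _ => rfl, fun x _ => rfl, fun T hT _ x _ => hT.refl x, ?_⟩
      simp
    | insert a s ha hmax ih =>
      intro hsub
      have haE : a ∈ EE := hsub (mem_insert_self a s)
      obtain ⟨g, g1, g2, g3, g4, g5⟩ := ih (fun x hx => hsub (mem_insert_of_mem hx))
      have hne : g (u a) ≠ g (v a) := by
        intro h
        apply h2 a haE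
        have hT : ∀ e ∈ s, S a (u e) (v e) := by
          intro e he
          refine h1 a haE e (hsub (mem_insert_of_mem he)) (lt_of_le_of_ne (hmax e he) ?_)
          intro h3
          exact ha (hkey (hsub (mem_insert_of_mem he)) haE h3 ▸ he)
        have e1 := g4 (S a) (hS a haE) hT (u a) (hu a haE)
        have e2 := g4 (S a) (hS a haE) hT (v a) (hv a haE)
        rw [h] at e1
        exact (hS a haE).trans e1 ((hS a haE).symm e2)
      refine ⟨fun x => if g x = g (v a) then g (u a) else g x, ?_, ?_, ?_, ?_, ?_⟩
      · intro x hx
        dsimp only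
        split_ifs
        · exact g1 _ (hu a haE)
        · exact g1 _ hx
      · intro x hx
        dsimp only
        split_ifs with h3 h4 h5
        · rfl
        · exact g2 _ (hu a haE)
        · exact absurd ((g2 x hx).symm.trans h5) h3
        · exact g2 x hx
      · intro x hx
        dsimp only
        split_ifs with h3
        · rw [g3 _ (hu a haE), ← hνu a haE, hνv a haE, ← g3 _ (hv a haE), ← h3, g3 x hx]
        · exact g3 x hx
      · intro T hT hs x hx
        have hs' : ∀ e ∈ s, T (u e) (v e) := fun e he => hs e (mem_insert_of_mem he)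
        dsimp only
        split_ifs with h3
        · have e1 := g4 T hT hs' x hx
          rw [h3] at e1
          have e2 := g4 T hT hs' (v a) (hv a haE)
          have e3 := g4 T hT hs' (u a) (hu a haE)
          have e4 := hs a (mem_insert_self a s)
          exact hT.trans e1 (hT.trans (hT.symm e2) (hT.trans (hT.symm e4) e3))
        · exact g4 T hT hs' x hx
      · have hf : VV.filter (fun x => (if g x = g (v a) then g (u a) else g x) = x)
            = (VV.filter (fun x => g x = x)).erase (g (v a)) := by
          ext x
          simp only [mem_filter, mem_erase]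
          constructor
          · rintro ⟨hx, h3⟩
            split_ifs at h3 with h4
            · exfalso
              apply hne
              rw [← h4, ← h3, g2 _ (hu a haE)]
            · refine ⟨fun h5 => h4 ?_, hx, h3⟩
              rw [h5, g2 _ (hv a haE)]
          · rintro ⟨h3, hx, h4⟩
            refine ⟨hx, ?_⟩
            rw [if_neg, h4]
            rw [h4]
            exact h3
        rw [hf, sum_insert ha]
        have hmem : g (v a) ∈ VV.filter (fun x => g x = x) := by
          rw [mem_filter]
          exact ⟨g1 _ (hv a haE), g2 _ (hv a haE)⟩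
        have h5 := sum_erase_add _ μ hmem
        rw [g3 _ (hv a haE), ← hνv a haE] at h5
        rw [← g5, ← h5]
        ring
  obtain ⟨g, g1, g2, g3, g4, g5⟩ := key1 EE subset_rfl
  have : 0 ≤ ∑ x ∈ VV.filter (fun x => g x = x), μ x :=
    sum_nonneg fun x hx => hμ x (mem_filter.1 hx).1
  linarith

/-- `Rel EE u v ℓ x y g`: there is a walk from `x` to `y` with label `g` (the last letter is on the
left). -/
inductive Rel {V E G : Type} [Group G] (EE : Set E) (u v : E → V) (ℓ : E → G) : V → V → G → Prop
  | refl (x : V) : Rel EE u v ℓ x x 1
  | fwd {x : V} {e : E} {g : G} (h : Rel EE u v ℓ x (u e) g) (he : e ∈ EE) :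
      Rel EE u v ℓ x (v e) (ℓ e * g)
  | bwd {x : V} {e : E} {g : G} (h : Rel EE u v ℓ x (v e) g) (he : e ∈ EE) :
      Rel EE u v ℓ x (u e) ((ℓ e)⁻¹ * g)

namespace Rel
variable {V E G : Type} [Group G] {EE : Set E} {u v : E → V} {ℓ : E → G}

theorem trans {x y z : V} {g h : G} (h1 : Rel EE u v ℓ x y g) (h2 : Rel EE u v ℓ y z h) :
    Rel EE u v ℓ x z (h * g) := by
  induction h2 with
  | refl => simpa using h1
  | fwd _ he ih => rw [mul_assoc]; exact ih.fwd he
  | bwd _ he ih => rw [mul_assoc]; exact ih.bwd he

theorem one_fwd {e : E} (he : e ∈ EE) : Rel EE u v ℓ (u e) (v e) (ℓ e) := by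
  simpa using (Rel.refl (EE := EE) (u := u) (v := v) (ℓ := ℓ) (u e)).fwd he

theorem one_bwd {e : E} (he : e ∈ EE) : Rel EE u v ℓ (v e) (u e) (ℓ e)⁻¹ := by
  simpa using (Rel.refl (EE := EE) (u := u) (v := v) (ℓ := ℓ) (v e)).bwd he

theorem symm {x y : V} {g : G} (h1 : Rel EE u v ℓ x y g) : Rel EE u v ℓ y x g⁻¹ := by
  induction h1 with
  | refl => simpa using Rel.refl (EE := EE) (u := u) (v := v) (ℓ := ℓ) x
  | fwd _ he ih => simpa using (one_bwd he).trans ih
  | bwd _ he ih => simpa using (one_fwd he).trans ih

end Rel

/-- A finite multigraph with at most as many edges as vertices has a vertex such that the labels of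
the closed walks at it are in a cyclic group. -/
theorem cyc_labels {V E G : Type} [Group G] [DecidableEq V] [DecidableEq E]
    (VV : Finset V) (EE : Finset E) (u v : E → V) (hu : ∀ e ∈ EE, u e ∈ VV)
    (hv : ∀ e ∈ EE, v e ∈ VV) (ℓ : E → G) (hne : VV.Nonempty) (hc : EE.card ≤ VV.card) :
    ∃ x ∈ VV, ∃ c : G, ∀ g, Rel (EE : Set E) u v ℓ x x g → g ∈ Subgroup.zpowers c := by
  have key1 : ∀ s : Finset E, s ⊆ EE → ∃ (g : V → V) (P : V → G) (L : V → List G),
      (∀ x ∈ VV, g x ∈ VV) ∧ (∀ x ∈ VV, g (g x) = g x) ∧
      (∀ e ∈ s, g (u e) = g (v e) ∧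
        (P (v e))⁻¹ * ℓ e * P (u e) ∈ Subgroup.closure {y | y ∈ L (g (u e))}) ∧
      ∑ x ∈ VV.filter (fun x => g x = x), (L x).length + VV.card
        = s.card + (VV.filter (fun x => g x = x)).card := by
    intro s
    induction s using Finset.induction_on with
    | empty =>
      intro _
      refine ⟨id, fun _ => 1, fun _ => [], fun x hx => hx, fun x _ => rfl, by simp, by simp⟩
    | insert a s ha ih =>
      intro hsub
      have haE : a ∈ EE := hsub (mem_insert_self a s)
      have hsE : s ⊆ EE := fun x hx => hsub (mem_insert_of_mem hx)
      obtain ⟨g, P, L, g1, g2, g3, g4⟩ := ih hsE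
      by_cases hr : g (u a) = g (v a)
      · set h := (P (v a))⁻¹ * ℓ a * P (u a) with hh
        refine ⟨g, P, Function.update L (g (u a)) (h :: L (g (u a))), g1, g2, ?_, ?_⟩
        · intro e he
          rcases mem_insert.1 he with rfl | he
          · refine ⟨hr, ?_⟩
            rw [Function.update_self]
            exact Subgroup.subset_closure (by simp [hh])
          · refine ⟨(g3 e he).1, ?_⟩
            by_cases h5 : g (u e) = g (u a)
            · rw [h5, Function.update_self]
              refine Subgroup.closure_mono ?_ (h5 ▸ (g3 e he).2)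
              intro y hy
              exact List.mem_cons_of_mem _ hy
            · rw [Function.update_of_ne h5]
              exact (g3 e he).2
        · have hmem : g (u a) ∈ VV.filter (fun x => g x = x) := by
            rw [mem_filter]
            exact ⟨g1 _ (hu a haE), g2 _ (hu a haE)⟩
          rw [← add_sum_erase _ _ hmem, Function.update_self, card_insert_of_notMem ha]
          have h5 : ∑ x ∈ (VV.filter (fun x => g x = x)).erase (g (u a)),
              (Function.update L (g (u a)) (h :: L (g (u a))) x).length
              = ∑ x ∈ (VV.filter (fun x => g x = x)).erase (g (u a)), (L x).length := by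
            refine sum_congr rfl fun x hx => ?_
            rw [Function.update_of_ne (mem_erase.1 hx).1]
          rw [h5, List.length_cons]
          have h6 := add_sum_erase (VV.filter (fun x => g x = x)) (fun x => (L x).length) hmem
          omega
      · set h := (P (v a))⁻¹ * ℓ a * P (u a) with hh
        refine ⟨fun x => if g x = g (v a) then g (u a) else g x,
          fun x => if g x = g (v a) then P x * h else P x,
          Function.update L (g (u a)) (L (g (u a)) ++ (L (g (v a))).map (fun y => h⁻¹ * y * h)),
          ?_, ?_, ?_, ?_⟩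
        · intro x hx
          dsimp only
          split_ifs
          · exact g1 _ (hu a haE)
          · exact g1 _ hx
        · intro x hx
          dsimp only
          split_ifs with h3 h4 h5
          · rfl
          · exact g2 _ (hu a haE)
          · exact absurd ((g2 x hx).symm.trans h5) h3
          · exact g2 x hx
        · intro e he
          rcases mem_insert.1 he with rfl | he
          · dsimp only
            rw [if_neg hr, if_pos rfl, if_neg hr, if_pos rfl]
            refine ⟨rfl, ?_⟩
            have : (P (v e) * h)⁻¹ * ℓ e * P (u e) = 1 := by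
              rw [hh]; group
            rw [this]
            exact Subgroup.one_mem _
          · obtain ⟨h5, h6⟩ := g3 e he
            dsimp only
            by_cases h7 : g (u e) = g (v a)
            · have h7' : g (v e) = g (v a) := h5 ▸ h7
              rw [if_pos h7, if_pos h7', if_pos h7, if_pos h7', Function.update_self]
              refine ⟨rfl, ?_⟩
              have h8 : (P (v e) * h)⁻¹ * ℓ e * (P (u e) * h)
                  = h⁻¹ * ((P (v e))⁻¹ * ℓ e * P (u e)) * h := by group
              rw [h8]
              rw [h7] at h6
              have h9 : ∀ y ∈ Subgroup.closure {y | y ∈ L (g (v a))}, h⁻¹ * y * h ∈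
                  Subgroup.closure {y | y ∈ L (g (u a)) ++
                    (L (g (v a))).map (fun y => h⁻¹ * y * h)} := by
                intro y hy
                induction hy using Subgroup.closure_induction with
                | mem x hx =>
                  refine Subgroup.subset_closure ?_
                  simp only [Set.mem_setOf_eq, List.mem_append, List.mem_map]
                  exact Or.inr ⟨x, hx, rfl⟩
                | one => simpa using Subgroup.one_mem _
                | mul x y _ _ hx hy =>
                  have : h⁻¹ * (x * y) * h = (h⁻¹ * x * h) * (h⁻¹ * y * h) := by group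
                  rw [this]
                  exact Subgroup.mul_mem _ hx hy
                | inv x _ hx =>
                  have : h⁻¹ * x⁻¹ * h = (h⁻¹ * x * h)⁻¹ := by group
                  rw [this]
                  exact Subgroup.inv_mem _ hx
              exact h9 _ h6
            · have h7' : g (v e) ≠ g (v a) := h5 ▸ h7
              rw [if_neg h7, if_neg h7', if_neg h7, if_neg h7']
              refine ⟨h5, ?_⟩
              by_cases h8 : g (u e) = g (u a)
              · rw [h8, Function.update_self]
                refine Subgroup.closure_mono ?_ (h8 ▸ h6)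
                intro y hy
                exact List.mem_append_left _ hy
              · rw [Function.update_of_ne h8]
                exact h6
        · have hf : VV.filter (fun x => (if g x = g (v a) then g (u a) else g x) = x)
              = (VV.filter (fun x => g x = x)).erase (g (v a)) := by
            ext x
            simp only [mem_filter, mem_erase]
            constructor
            · rintro ⟨hx, h3⟩
              split_ifs at h3 with h4
              · exfalso
                apply hr
                rw [← h4, ← h3, g2 _ (hu a haE)]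
              · refine ⟨fun h5 => h4 ?_, hx, h3⟩
                rw [h5, g2 _ (hv a haE)]
            · rintro ⟨h3, hx, h4⟩
              refine ⟨hx, ?_⟩
              rw [if_neg, h4]
              rw [h4]
              exact h3
          have hmv : g (v a) ∈ VV.filter (fun x => g x = x) := by
            rw [mem_filter]
            exact ⟨g1 _ (hv a haE), g2 _ (hv a haE)⟩
          have hmu : g (u a) ∈ (VV.filter (fun x => g x = x)).erase (g (v a)) := by
            rw [mem_erase, mem_filter]
            exact ⟨hr, g1 _ (hu a haE), g2 _ (hu a haE)⟩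
          have e1 := add_sum_erase (VV.filter (fun x => g x = x)) (fun x => (L x).length) hmv
          have e2 := add_sum_erase _ (fun x => (L x).length) hmu
          have e3 := card_erase_add_one hmv
          rw [hf, ← add_sum_erase _ _ hmu, Function.update_self, card_insert_of_notMem ha]
          have h5 : ∑ x ∈ ((VV.filter (fun x => g x = x)).erase (g (v a))).erase (g (u a)),
              (Function.update L (g (u a)) (L (g (u a)) ++
                (L (g (v a))).map (fun y => h⁻¹ * y * h)) x).length
              = ∑ x ∈ ((VV.filter (fun x => g x = x)).erase (g (v a))).erase (g (u a)),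
                (L x).length := by
            refine sum_congr rfl fun x hx => ?_
            rw [Function.update_of_ne (mem_erase.1 hx).1]
          rw [h5, List.length_append, List.length_map]
          omega
  obtain ⟨g, P, L, g1, g2, g3, g4⟩ := key1 EE subset_rfl
  have hne' : (VV.filter (fun x => g x = x)).Nonempty := by
    obtain ⟨x, hx⟩ := hne
    exact ⟨g x, mem_filter.2 ⟨g1 x hx, g2 x hx⟩⟩
  obtain ⟨x, hx, hL⟩ : ∃ x ∈ VV.filter (fun x => g x = x), (L x).length ≤ 1 := by
    by_contra hcon
    push Not at hcon
    have h5 : ∑ x ∈ VV.filter (fun x => g x = x), 2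
        ≤ ∑ x ∈ VV.filter (fun x => g x = x), (L x).length :=
      sum_le_sum fun x hx => hcon x hx
    rw [sum_const, smul_eq_mul] at h5
    have := hne'.card_pos
    omega
  obtain ⟨hxV, hgx⟩ := mem_filter.1 hx
  -- every walk
  have hw : ∀ x y w, Rel (EE : Set E) u v ℓ x y w → g x = g y ∧
      (P y)⁻¹ * w * P x ∈ Subgroup.closure {y | y ∈ L (g x)} := by
    intro x y w h
    induction h with
    | refl => exact ⟨rfl, by simpa using Subgroup.one_mem _⟩
    | @fwd e w h he ih =>
      obtain ⟨h5, h6⟩ := g3 e he
      refine ⟨ih.1.trans h5, ?_⟩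
      have h7 := Subgroup.mul_mem _ (ih.1 ▸ h6) ih.2
      rw [ih.1] at h7 ⊢
      convert h7 using 1
      group
    | @bwd e w h he ih =>
      obtain ⟨h5, h6⟩ := g3 e he
      refine ⟨ih.1.trans h5.symm, ?_⟩
      have h8 : g x = g (u e) := ih.1.trans h5.symm
      have h7 := Subgroup.mul_mem _ (Subgroup.inv_mem _ (h8 ▸ h6)) ih.2
      convert h7 using 1
      group
  have hcyc : ∃ c : G, Subgroup.closure {y | y ∈ L (g x)} ≤ Subgroup.zpowers c := by
    rw [hgx]
    rcases h : L x with _ | ⟨c, l⟩
    · exact ⟨1, by simp⟩
    · rw [h] at hL
      have : l = [] := by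
        rcases l with _ | ⟨_, _⟩
        · rfl
        · simp at hL
      subst this
      refine ⟨c, ?_⟩
      rw [Subgroup.closure_le]
      intro y hy
      simp only [List.mem_singleton, Set.setOf_eq_eq_singleton, Set.mem_singleton_iff] at hy
      rw [hy]
      exact Subgroup.mem_zpowers c
  obtain ⟨c, hc'⟩ := hcyc
  refine ⟨x, hxV, P x * c * (P x)⁻¹, fun w hw' => ?_⟩
  obtain ⟨k, hk⟩ := Subgroup.mem_zpowers_iff.1 (hc' (hw x x w hw').2)
  rw [Subgroup.mem_zpowers_iff]
  refine ⟨k, ?_⟩
  rw [conj_zpow, hk]
  group

end Pool.Agent.FrZ
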