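import Pool.Agent.Lib.MP_305fdd_al.Fr.Z.Tel
import Pool.Agent.Lib.MP_305fdd_al.Fr.Z.Graph

/-!
# The count (2.2): the total length of the effective zippers is at most the length of a
transversal of the eroded system
-/

set_option autoImplicit false
set_option linter.unusedSectionVars false
set_option linter.unusedVariables false
set_option linter.unnecessarySeqFocus false

open Finset

namespace Pool.Agent.FrZ

namespace AD

section
variable {J I R : Type} [CommRing R] [LinearOrder R] [IsStrictOrderedRing R]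
variable {X : Sys J I R} {t : R} {N : Set (FreeGroup J)} {ι : Type} (A : AD X t N ι)

open Classical in
/-- the projection to the representative arcs -/
noncomputable def pi (x : R) : R :=
  if h : ∃ α, A.p α < x ∧ x < A.q α then A.pt h.choose x else x

theorem pi_eq {α : ι} {x : R} (h1 : A.p α < x) (h2 : x < A.q α) : A.pi x = A.pt α x := by
  have h : ∃ α, A.p α < x ∧ x < A.q α := ⟨α, h1, h2⟩
  unfold pi
  rw [dif_pos h, A.uniq _ α x h.choose_spec.1 h.choose_spec.2 h1 h2]

end
end AD

namespace Sys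

section
variable {J I R : Type} [CommRing R] [LinearOrder R] [IsStrictOrderedRing R] (X : Sys J I R)

/-- connected by steps allowed for `(z, t)` in both directions -/
def Sred (rk : J × Bool → ℕ) (z : J × Bool) (t : R) (x y : R) : Prop :=
  ∃ γ, (∀ d, X.Valid (X.Allowed rk z t) γ (x, d)) ∧ (X.run γ (x, true)).1 = y

theorem Sred.equiv (rk : J × Bool → ℕ) (z : J × Bool) (t : R) :
    Equivalence (X.Sred rk z t) where
  refl x := ⟨[], fun _ => trivial, rfl⟩
  symm := by
    rintro x y ⟨γ, h1, h2⟩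
    refine ⟨rev γ, ?_, ?_⟩
    · intro d
      obtain ⟨d', hd'⟩ : ∃ d', X.run γ (x, d') = (y, d) := by
        by_cases h : (X.run γ (x, true)).2 = d
        · exact ⟨true, Prod.ext h2 h⟩
        · refine ⟨false, Prod.ext ?_ ?_⟩
          · rw [X.run_fst γ x false true]; exact h2
          · have h3 : (X.run γ (x, false)).2 = !(X.run γ (x, true)).2 := by
              have : ∀ (γ : List (J × Bool)) (x : R) (d : Bool),
                  (X.run γ (x, !d)).2 = !(X.run γ (x, d)).2 := by
                intro γ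
                induction γ with
                | nil => intro x d; rfl
                | cons σ γ ih =>
                  intro x d
                  simp only [run, mv]
                  rw [← ih]
                  congr 3
                  cases d <;> cases X.fl σ.1 <;> rfl
              exact this γ x true
            rw [h3]
            revert h
            cases (X.run γ (x, true)).2 <;> cases d <;> simp
      have := X.valid_rev (fun σ s hs => (X.allowed_mv rk z t σ s).2 hs) γ _ (h1 d')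
      rwa [hd'] at this
    · have h3 : X.run γ (x, true) = (y, (X.run γ (x, true)).2) := by rw [← h2]
      rw [X.run_fst (rev γ) y true (X.run γ (x, true)).2, ← h3, X.run_rev]
  trans := by
    rintro x y w ⟨γ, h1, h2⟩ ⟨δ, h3, h4⟩
    refine ⟨γ ++ δ, ?_, ?_⟩
    · intro d
      rw [X.valid_append]
      refine ⟨h1 d, ?_⟩
      have : X.run γ (x, d) = (y, (X.run γ (x, d)).2) := by
        rw [← h2, X.run_fst γ x true d]
      rw [this]
      exact h3 _
    · rw [X.run_append]
      have : X.run γ (x, true) = (y, (X.run γ (x, true)).2) := by rw [← h2]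
      rw [this, X.run_fst δ y _ true]
      exact h4

theorem Sred.of_OK {rk : J × Bool → ℕ} {z : J × Bool} {t t0 : R} (h : t < t0)
    {γ : List (J × Bool)} {x y : R} (hv : X.Valid (X.OK t0) γ (x, true))
    (hr : (X.run γ (x, true)).1 = y) : X.Sred rk z t x y := by
  refine ⟨γ, fun d => ?_, hr⟩
  refine X.valid_mono ?_ γ _ (X.valid_OK_dir t0 γ x true d hv)
  rintro σ s ⟨h1, h2⟩
  exact ⟨h.le.trans h2, Or.inl (h.trans_le h1)⟩

end

variable {J I : Type} (X : Sys J I ℝ)

/-- ends of the part of the zipper `z` between the depths `s` and `t` -/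
def zl (s t : ℝ) (z : J × Bool) : ℝ := if z.2 then X.a z.1 + X.l z.1 - t else X.a z.1 + s

def zh (s t : ℝ) (z : J × Bool) : ℝ := if z.2 then X.a z.1 + X.l z.1 - s else X.a z.1 + t

theorem count_s [Fintype J] {Γ : Type} [Group Γ] {ρ : FreeGroup J →* Γ} (hX : X.Good)
    (hρ : X.Arc ρ) (rk : J × Bool → ℕ) (hrk : Function.Injective rk) {s t0 : ℝ} (hs : 0 < s)
    (hst : s < t0) (hl : ∀ j, 2 * t0 < X.l j) {C : Finset ℝ} (hC : X.Inv s C)
    (hs1 : ∀ σ, X.dl σ + s ∈ C) (hs2 : ∀ σ, X.dl σ + X.l σ.1 - s ∈ C)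
    (ht1 : ∀ σ, X.dl σ + t0 ∈ C) (ht2 : ∀ σ, X.dl σ + X.l σ.1 - t0 ∈ C)
    {N : Set (FreeGroup J)} {ι : Type} [Fintype ι] [DecidableEq ι] (A : AD X t0 N ι)
    (hAC : ∀ α, A.p α ∈ C ∧ A.q α ∈ C) (EZ : Finset (J × Bool))
    (hEZ : ∀ z ∈ EZ, ∀ t, 0 < t → t < t0 → ¬ X.Red rk z t) :
    EZ.card * (t0 - s) ≤ ∑ α ∈ univ.filter (fun α => A.rep α = α), (A.q α - A.p α) := by
  classical
  -- vertices
  set VB : Finset (ℝ × ℝ) := (X.SA C).filter
    (fun b => ∃ α, A.rep α = α ∧ A.p α ≤ b.1 ∧ b.2 ≤ A.q α) with hVB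
  set VV : Finset ℝ := VB.image mid with hVV
  -- edges
  set EE : Finset ((J × Bool) × (ℝ × ℝ)) := (EZ ×ˢ X.SA C).filter
    (fun e => X.zl s t0 e.1 ≤ e.2.1 ∧ e.2.2 ≤ X.zh s t0 e.1) with hEE
  -- depth
  set dep : (J × Bool) × (ℝ × ℝ) → ℝ := fun e => X.fw (e.1.1, true) (mid e.2, e.1.2) with hdep
  have hmem : ∀ b, X.IsArc C b → b.1 < mid b ∧ mid b < b.2 := by
    intro b hb
    have := hb.2.2.1
    unfold mid
    constructor <;> linarith
  have hdepEE : ∀ e ∈ EE, e.1 ∈ EZ ∧ X.IsArc C e.2 ∧ s < dep e ∧ dep e < t0 := by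
    intro e he
    rw [hEE, mem_filter, mem_product, mem_SA] at he
    obtain ⟨⟨h1, h2⟩, h3, h4⟩ := he
    obtain ⟨m1, m2⟩ := hmem _ h2
    refine ⟨h1, h2, ?_, ?_⟩
    · simp only [hdep, fw, dl, zl, zh] at h3 h4 ⊢
      split_ifs at h3 h4 ⊢ <;> linarith
    · simp only [hdep, fw, dl, zl, zh] at h3 h4 ⊢
      split_ifs at h3 h4 ⊢ <;> linarith
  have hdepbw : ∀ e, X.bw (e.1.1, true) (mid e.2, e.1.2) = X.l e.1.1 - dep e := by
    intro e
    have := X.fw_add_bw (e.1.1, true) (mid e.2, e.1.2)
    simp only [hdep]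
    linarith
  -- every midpoint is inside an arc
  have hin : ∀ b, X.IsArc C b → ∃ α, A.p α < mid b ∧ mid b < A.q α := by
    intro b hb
    obtain ⟨m1, m2⟩ := hmem b hb
    obtain ⟨i, i1, i2⟩ := hb.2.2.2.1
    refine A.cover (mid b) i (i1.trans_lt m1) (m2.trans_le i2) fun α => ⟨?_, ?_⟩
    · intro h
      exact hb.2.2.2.2 _ (hAC α).1 (h ▸ ⟨m1, m2⟩)
    · intro h
      exact hb.2.2.2.2 _ (hAC α).2 (h ▸ ⟨m1, m2⟩)
  -- projections of midpoints
  have hpi : ∀ b, X.IsArc C b → A.pi (mid b) ∈ VV ∧ X.mu C (A.pi (mid b)) = b.2 - b.1 := by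
    intro b hb
    obtain ⟨α, h1, h2⟩ := hin b hb
    rw [A.pi_eq h1 h2]
    have hv := X.valid_mono (fun σ u hu => X.OK_mono hst.le σ u hu) _ _
      (X.valid_rev (fun σ u hu => (X.OK_mv t0 σ u).2 hu) _ _ (A.w_valid α _ h1 h2))
    rw [A.w_run] at hv
    obtain ⟨b', hb', e1, e2⟩ := X.run_mid hX hs hC hs1 hs2 _ _ hb hv
    have e3 : (X.run (rev (A.w α)) (mid b, (A.s α).2)) = (A.pt α (mid b), true) := by
      rw [← A.w_run α (mid b), X.run_rev]
    rw [e3] at e1
    simp only at e1
    rw [← e1, X.mu_mid hb']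
    refine ⟨?_, e2⟩
    rw [hVV, mem_image]
    refine ⟨b', ?_, rfl⟩
    rw [hVB, mem_filter, mem_SA]
    refine ⟨hb', A.rep α, A.rep_rep α, ?_, ?_⟩
    · have h3 := (A.pt_mem α _ h1 h2).1
      obtain ⟨m1, m2⟩ := hmem b' hb'
      rw [← e1] at h3
      by_contra h
      push Not at h
      exact hb'.2.2.2.2 _ (hAC (A.rep α)).1 ⟨h, h3.trans m2⟩
    · have h3 := (A.pt_mem α _ h1 h2).2
      obtain ⟨m1, m2⟩ := hmem b' hb'
      rw [← e1] at h3
      by_contra h
      push Not at h
      exact hb'.2.2.2.2 _ (hAC (A.rep α)).2 ⟨m1.trans h3, h⟩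
  -- the word from the projection
  have hSpi : ∀ (z : J × Bool) (t : ℝ) (b : ℝ × ℝ), t < t0 → X.IsArc C b →
      X.Sred rk z t (A.pi (mid b)) (mid b) := by
    intro z t b ht hb
    obtain ⟨α, h1, h2⟩ := hin b hb
    rw [A.pi_eq h1 h2]
    exact Sred.of_OK X ht (A.w_valid α _ h1 h2) (by rw [A.w_run])
  -- images of the zipper points
  have himg : ∀ e ∈ EE, ∃ b', X.IsArc C b' ∧ mid b' = X.mvx (e.1.1, true) (mid e.2) ∧
      b'.2 - b'.1 = e.2.2 - e.2.1 := by
    intro e he
    obtain ⟨h1, h2, h3, h4⟩ := hdepEE e he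
    refine X.step_mid hX hs hC hs1 hs2 h2 (d := e.1.2) ⟨h3.le, ?_⟩
    rw [hdepbw]
    linarith [hl e.1.1]
  have hmain := uf_weights VV EE (fun e => toLex (-dep e, rk e.1)) ?_
    (fun e => A.pi (mid e.2)) (fun e => A.pi (X.mvx (e.1.1, true) (mid e.2))) ?_ ?_ (X.mu C)
    (fun x _ => X.mu_nonneg C x) (fun e => e.2.2 - e.2.1) ?_ ?_
    (fun e => X.Sred rk e.1 (dep e)) (fun e _ => Sred.equiv X rk e.1 (dep e)) ?_ ?_
  rotate_left
  · -- injectivity of the key
    intro e he e' he' h
    simp only [toLex_inj, Prod.mk.injEq, neg_inj] at h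
    have hz : e.1 = e'.1 := hrk h.2
    obtain ⟨-, a2, -, -⟩ := hdepEE e he
    obtain ⟨-, b2, -, -⟩ := hdepEE e' he'
    refine Prod.ext hz (X.mid_inj a2 b2 ?_)
    have := h.1
    simp only [hdep, fw] at this
    rw [hz] at this
    split_ifs at this <;> linarith
  · intro e he
    exact (hpi _ (hdepEE e he).2.1).1
  · intro e he
    obtain ⟨b', hb', e1, -⟩ := himg e he
    rw [← e1]
    exact (hpi _ hb').1
  · intro e he
    exact (hpi _ (hdepEE e he).2.1).2.symm
  · intro e he
    obtain ⟨b', hb', e1, e2⟩ := himg e he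
    rw [← e1, (hpi _ hb').2]
    exact e2.symm
  · -- earlier edges
    intro e he e' he' hlt
    obtain ⟨a1, a2, a3, a4⟩ := hdepEE e he
    obtain ⟨b1, b2, b3, b4⟩ := hdepEE e' he'
    obtain ⟨b', hb', e1, -⟩ := himg e' he'
    have hlt' : dep e < dep e' ∨ (dep e = dep e' ∧ rk e'.1 < rk e.1) := by
      rw [Prod.Lex.toLex_lt_toLex] at hlt
      simp only [neg_lt_neg_iff, neg_inj] at hlt
      rcases hlt with h | ⟨h, h'⟩
      · exact Or.inl h
      · exact Or.inr ⟨h.symm, h'⟩
    have heq := Sred.equiv X rk e.1 (dep e)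
    have hstep : X.Sred rk e.1 (dep e) (mid e'.2) (mid b') := by
      refine ⟨[(e'.1.1, true)], fun d => ⟨?_, trivial⟩, e1.symm⟩
      have hbw := hdepbw e'
      have hl' := hl e'.1.1
      by_cases hd : d = e'.1.2
      · subst hd
        refine ⟨?_, ?_⟩
        · rw [hbw]; linarith
        · rcases hlt' with h | ⟨h, h'⟩
          · exact Or.inl h
          · refine Or.inr ⟨h, ?_⟩
            have : X.zip (e'.1.1, true) e'.1.2 = e'.1 := by simp [zip]
            rw [this]
            exact h'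
      · have hd' : d = !e'.1.2 := by
          revert hd
          cases d <;> cases e'.1.2 <;> simp
        subst hd'
        refine ⟨?_, Or.inl ?_⟩
        · rw [X.bw_not]
          rcases hlt' with h | ⟨h, h'⟩
          · exact h.le
          · exact h.le
        · rw [X.fw_not, hbw]
          linarith
    have hend : X.Sred rk e.1 (dep e) (A.pi (mid b')) (mid b') := hSpi _ _ _ a4 hb'
    change X.Sred rk e.1 (dep e) (A.pi (mid e'.2)) (A.pi (X.mvx (e'.1.1, true) (mid e'.2)))
    rw [← e1]
    exact heq.trans (hSpi _ _ _ a4 b2) (heq.trans hstep (heq.symm hend))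
  · -- effective zippers are not redundant
    intro e he hSe
    obtain ⟨a1, a2, a3, a4⟩ := hdepEE e he
    obtain ⟨b', hb', e1, -⟩ := himg e he
    apply hEZ _ a1 (dep e) (hs.trans a3) a4
    have heq := Sred.equiv X rk e.1 (dep e)
    have h3 : X.Sred rk e.1 (dep e) (mid e.2) (mid b') := by
      refine heq.trans (heq.symm (hSpi _ _ _ a4 a2)) (heq.trans hSe ?_)
      rw [← e1]
      exact hSpi _ _ _ a4 hb'
    obtain ⟨γ, hγ, hr⟩ := h3
    have hzs : X.zs e.1 (dep e) = (mid e.2, e.1.2) := by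
      simp only [zs, hdep, fw, dl]
      split_ifs with h <;> simp [h]
    refine ⟨γ, ?_, ?_⟩
    · rw [hzs]; exact hγ _
    · rw [hzs]
      have hfst : (X.run γ (mid e.2, e.1.2)).1 = X.mvx (e.1.1, true) (mid e.2) := by
        rw [← e1, X.run_fst γ _ e.1.2 true]; exact hr
      -- close up
      have hfst' : X.run γ (mid e.2, e.1.2)
          = (X.mvx (e.1.1, true) (mid e.2), (X.run γ (mid e.2, e.1.2)).2) := by rw [← hfst]
      have hokstep : X.OK (dep e) (e.1.1, true) (mid e.2, e.1.2) := by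
        refine ⟨le_rfl, ?_⟩
        rw [hdepbw]
        linarith [hl e.1.1]
      have hokinv := (X.OK_mv (dep e) _ _).2 hokstep
      have hclosed := Arc.dir X hρ (hs.trans a3) (γ ++ [inv (e.1.1, true)]) (mid e.2) e.1.2 ?_ ?_
      · have h4 := hclosed.1
        rw [X.run_append] at h4
        simp only [run] at h4
        have h5 := congrArg (X.mv (e.1.1, true)) h4
        rwa [X.mv_inv'] at h5
      · rw [X.valid_append]
        refine ⟨?_, ?_, trivial⟩
        · refine X.valid_mono ?_ _ _ (hγ _)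
          rintro σ u ⟨u1, u2⟩
          refine ⟨?_, u1⟩
          rcases u2 with u2 | u2
          · exact u2.le
          · exact u2.1.le
        · rw [hfst']
          exact X.OK_dir _ _ _ _ _ hokinv
      · rw [X.run_append]
        simp only [run, mv]
        rw [hfst]
        exact X.mvx_inv _ _
  -- the sums
  have hsumV : ∑ x ∈ VV, X.mu C x
      = ∑ α ∈ univ.filter (fun α => A.rep α = α), (A.q α - A.p α) := by
    rw [hVV, sum_image]
    · have hVB' : VB = (univ.filter (fun α => A.rep α = α)).biUnion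
          (fun α => (X.SA C).filter (fun b => A.p α ≤ b.1 ∧ b.2 ≤ A.q α)) := by
        ext b
        simp only [hVB, mem_filter, mem_biUnion, mem_univ, true_and]
        constructor
        · rintro ⟨h1, α, h2, h3⟩
          exact ⟨α, h2, h1, h3⟩
        · rintro ⟨α, h2, h1, h3⟩
          exact ⟨h1, α, h2, h3⟩
      rw [hVB', sum_biUnion]
      · refine sum_congr rfl fun α hα => ?_
        obtain ⟨i, i1, i2⟩ := A.comp α
        rw [← X.tel_SA (hAC α).1 (hAC α).2 (A.lt α).le i i1 i2]
        refine sum_congr rfl fun b hb => ?_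
        rw [mem_filter, mem_SA] at hb
        exact X.mu_mid hb.1
      · intro α _ β _ hne
        rw [Function.onFun, disjoint_left]
        intro b hb hb'
        rw [mem_filter, mem_SA] at hb hb'
        obtain ⟨m1, m2⟩ := hmem b hb.1
        apply hne
        exact A.uniq α β (mid b) (hb.2.1.trans_lt m1) (m2.trans_le hb.2.2)
          (hb'.2.1.trans_lt m1) (m2.trans_le hb'.2.2)
    · intro b hb b' hb' h
      rw [mem_coe, hVB, mem_filter, mem_SA] at hb hb'
      exact X.mid_inj hb.1 hb'.1 h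
  have hsumE : ∑ e ∈ EE, (e.2.2 - e.2.1) = EZ.card * (t0 - s) := by
    rw [hEE, sum_filter, sum_product]
    have : ∀ z ∈ EZ, ∑ b ∈ X.SA C, (if X.zl s t0 z ≤ b.1 ∧ b.2 ≤ X.zh s t0 z then b.2 - b.1 else 0)
        = t0 - s := by
      intro z hz
      rw [← sum_filter]
      have hdom := hX.dom (z.1, true)
      have hlz := hl z.1
      have e1 : X.zl s t0 z ∈ C := by
        have k1 := hs1 (z.1, true)
        have k2 := ht2 (z.1, true)
        simp only [dl, if_true] at k1 k2
        unfold zl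
        split_ifs
        · exact k2
        · exact k1
      have e2 : X.zh s t0 z ∈ C := by
        have k1 := ht1 (z.1, true)
        have k2 := hs2 (z.1, true)
        simp only [dl, if_true] at k1 k2
        unfold zh
        split_ifs
        · exact k2
        · exact k1
      simp only [dl, if_true] at hdom
      rw [X.tel_SA e1 e2 ?_ (X.dc (z.1, true)) ?_ ?_]
      · unfold zl zh
        split_ifs <;> ring
      · unfold zl zh
        split_ifs <;> linarith
      · unfold zl
        split_ifs <;> linarith [hdom.1]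
      · unfold zh
        split_ifs <;> linarith [hdom.2]
    rw [sum_congr rfl this, sum_const, nsmul_eq_mul]
  rw [← hsumE, ← hsumV]
  exact hmain

end Sys

end Pool.Agent.FrZ
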