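import Mathlib

/-!
# MP_305fdd_al, free groups of all ranks: finite systems of interval isometries (Theorem R,
sections 1 and 2).  Definitions.

A point with a direction is a state `(x, d) : R × Bool`, `d = true` is the increasing direction.
Steps are elements of `J × Bool`: `(j, true)` applies the band `j`, `(j, false)` its inverse.
-/

set_option autoImplicit false

namespace Pool.Agent.FrZ

/-- A system of partial isometries (bands) `[a j, a j + l j] → [b j, b j + l j]`, orientation
reversing iff `fl j`, of a disjoint union of intervals `[lo i, hi i]`; the domain of `j` is in the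
component `ca j` and its range in the component `cb j`. -/
structure Sys (J I R : Type) where
  a : J → R
  b : J → R
  l : J → R
  fl : J → Bool
  lo : I → R
  hi : I → R
  ca : J → I
  cb : J → I

variable {J I R : Type}

/-- the inverse step -/
def inv (σ : J × Bool) : J × Bool := (σ.1, !σ.2)

/-- the group element of a step -/
def sg (σ : J × Bool) : FreeGroup J := if σ.2 then FreeGroup.of σ.1 else (FreeGroup.of σ.1)⁻¹

/-- the label of a word: `[σ₁, ..., σₙ]` (apply `σ₁` first) has the label `σₙ * ... * σ₁` -/
def lab : List (J × Bool) → FreeGroup J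
  | [] => 1
  | σ :: γ => lab γ * sg σ

/-- the reversed word -/
def rev (γ : List (J × Bool)) : List (J × Bool) := (γ.map inv).reverse

variable [AddCommGroup R] [LinearOrder R]

namespace Sys

variable (X : Sys J I R)

/-- left end of the domain of a step -/
def dl (σ : J × Bool) : R := if σ.2 then X.a σ.1 else X.b σ.1

/-- component of the domain of a step -/
def dc (σ : J × Bool) : I := if σ.2 then X.ca σ.1 else X.cb σ.1

/-- a step applied to a point -/
def mvx (σ : J × Bool) (x : R) : R :=
  if X.fl σ.1 then X.dl (inv σ) + (X.dl σ + X.l σ.1 - x) else X.dl (inv σ) + (x - X.dl σ)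

/-- a step applied to a state -/
def mv (σ : J × Bool) (s : R × Bool) : R × Bool := (X.mvx σ s.1, xor s.2 (X.fl σ.1))

/-- distance to the end of the domain in the carried direction -/
def fw (σ : J × Bool) (s : R × Bool) : R :=
  if s.2 then X.dl σ + X.l σ.1 - s.1 else s.1 - X.dl σ

/-- distance to the other end of the domain -/
def bw (σ : J × Bool) (s : R × Bool) : R :=
  if s.2 then s.1 - X.dl σ else X.dl σ + X.l σ.1 - s.1

/-- the end of the domain of `σ` in direction `d`, as an end of the domain `[a j, a j + l j]` -/
def zip (σ : J × Bool) (d : Bool) : J × Bool := (σ.1, if σ.2 then d else xor d (X.fl σ.1))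

/-- the step is defined at the state and has depth at least `t` -/
def OK (t : R) (σ : J × Bool) (s : R × Bool) : Prop := t ≤ X.fw σ s ∧ t ≤ X.bw σ s

/-- apply a word to a state -/
def run : List (J × Bool) → R × Bool → R × Bool
  | [], s => s
  | σ :: γ, s => run γ (X.mv σ s)

/-- all steps of the word satisfy `P` -/
def Valid (P : J × Bool → R × Bool → Prop) : List (J × Bool) → R × Bool → Prop
  | [], _ => True
  | σ :: γ, s => P σ s ∧ Valid P γ (X.mv σ s)

/-- the state on the end `z = (j, c)` of the domain of the band `j` at distance `t` from this end,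
with the outward direction -/
def zs (z : J × Bool) (t : R) : R × Bool :=
  (if z.2 then X.a z.1 + X.l z.1 - t else X.a z.1 + t, z.2)

/-- the steps allowed for the redundancy of the zipper `z` at depth `t`; `rk` is the order of the
zippers -/
def Allowed (rk : J × Bool → ℕ) (z : J × Bool) (t : R) (σ : J × Bool) (s : R × Bool) : Prop :=
  t ≤ X.bw σ s ∧ (t < X.fw σ s ∨ (t = X.fw σ s ∧ rk (X.zip σ s.2) < rk z))

/-- the zipper `z` is redundant at depth `t` -/
def Red (rk : J × Bool → ℕ) (z : J × Bool) (t : R) : Prop :=
  ∃ γ, X.Valid (X.Allowed rk z t) γ (X.zs z t) ∧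
    X.run γ (X.zs z t) = X.mv (z.1, true) (X.zs z t)

/-- the intervals are nondegenerate, the components are disjoint, the domains are in the components -/
structure Good : Prop where
  l_pos : ∀ j, 0 < X.l j
  lt : ∀ i, X.lo i < X.hi i
  disj : ∀ i i', i ≠ i' → X.hi i < X.lo i' ∨ X.hi i' < X.lo i
  dom : ∀ σ, X.lo (X.dc σ) ≤ X.dl σ ∧ X.dl σ + X.l σ.1 ≤ X.hi (X.dc σ)

/-- Words which fix an arc are trivial under `ρ`, and no word reverses an arc. -/
def Arc {Γ : Type} [Group Γ] (ρ : FreeGroup J →* Γ) : Prop :=
  ∀ (ε : R), 0 < ε → ∀ (γ : List (J × Bool)) (x : R), X.Valid (X.OK ε) γ (x, true) →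
    (X.run γ (x, true)).1 = x → (X.run γ (x, true)).2 = true ∧ ρ (lab γ) = 1

/-- the orbits of the eroded systems are finite -/
def FinOrb : Prop :=
  ∀ (ε : R), 0 < ε → ∀ x : R,
    {y | ∃ γ, X.Valid (X.OK ε) γ (x, true) ∧ (X.run γ (x, true)).1 = y}.Finite

/-- the system with all lengths and positions changed by `L` -/
def map {R' : Type} (L : R → R') : Sys J I R' where
  a j := L (X.a j)
  b j := L (X.b j)
  l j := L (X.l j)
  fl := X.fl
  lo i := L (X.lo i)
  hi i := L (X.hi i)
  ca := X.ca
  cb := X.cb

end Sys

end Pool.Agent.FrZ
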