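import Pool.Agent.Lib.MP_305fdd_al.Fr.Z.AD

/-!
# The arc decomposition of a real system with finite orbits
-/

set_option autoImplicit false
set_option linter.unusedSectionVars false
set_option linter.unusedVariables false
set_option linter.unnecessarySeqFocus false

namespace Pool.Agent.FrZ

variable {J I : Type}

namespace Sys

theorem run_not {R : Type} [CommRing R] [LinearOrder R] (X : Sys J I R) (γ : List (J × Bool))
    (x : R) (d : Bool) : (X.run γ (x, !d)).2 = !(X.run γ (x, d)).2 := by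
  induction γ generalizing x d with
  | nil => rfl
  | cons σ γ ih =>
    simp only [run, mv]
    rw [← ih]
    congr 3
    cases d <;> cases X.fl σ.1 <;> rfl

variable (X : Sys J I ℝ)

/-- invariance of a finite set under the system eroded by `t` -/
def Inv (t : ℝ) (C : Finset ℝ) : Prop := ∀ c ∈ C, ∀ σ d, X.OK t σ (c, d) → X.mvx σ c ∈ C

/-- existence of finite invariant sets -/
theorem cut_set (h : X.FinOrb) {t : ℝ} (ht : 0 < t) (S : Finset ℝ) :
    ∃ C : Finset ℝ, S ⊆ C ∧ X.Inv t C ∧ ∀ A : AddSubgroup ℝ, (∀ j, X.a j ∈ A) →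
      (∀ j, X.b j ∈ A) → (∀ j, X.l j ∈ A) → (∀ x ∈ S, x ∈ A) → ∀ c ∈ C, c ∈ A := by
  classical
  refine ⟨S.biUnion fun x => (h t ht x).toFinset, ?_, ?_, ?_⟩
  · intro x hx
    rw [Finset.mem_biUnion]
    refine ⟨x, hx, ?_⟩
    rw [Set.Finite.mem_toFinset]
    exact ⟨[], trivial, rfl⟩
  · intro c hc σ d hσ
    rw [Finset.mem_biUnion] at hc ⊢
    obtain ⟨x, hx, hc⟩ := hc
    refine ⟨x, hx, ?_⟩
    rw [Set.Finite.mem_toFinset] at hc ⊢
    obtain ⟨γ, hγ, he⟩ := hc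
    refine ⟨γ ++ [σ], ?_, ?_⟩
    · rw [X.valid_append]
      refine ⟨hγ, ?_, trivial⟩
      have : X.run γ (x, true) = (c, (X.run γ (x, true)).2) := by rw [← he]
      rw [this]
      exact X.OK_dir _ _ _ _ _ hσ
    · rw [X.run_append]
      simp only [run, mv]
      rw [he]
  · intro A ha hb hl hS c hc
    rw [Finset.mem_biUnion] at hc
    obtain ⟨x, hx, hc⟩ := hc
    rw [Set.Finite.mem_toFinset] at hc
    obtain ⟨γ, hγ, he⟩ := hc
    have key : ∀ (γ : List (J × Bool)) (s : ℝ × Bool), s.1 ∈ A → (X.run γ s).1 ∈ A := by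
      intro γ
      induction γ with
      | nil => exact fun s hs => hs
      | cons σ γ ih =>
        intro s hs
        refine ih _ ?_
        have hd : ∀ σ, X.dl σ ∈ A := by
          rintro ⟨j, b⟩
          cases b <;> simp [dl, ha, hb]
        simp only [mv, mvx]
        split_ifs
        · exact A.add_mem (hd _) (A.sub_mem (A.add_mem (hd _) (hl _)) hs)
        · exact A.add_mem (hd _) (A.sub_mem hs (hd _))
    rw [← he]
    exact key γ _ (hS x hx)

/-- pairs of consecutive points of `C` in one component -/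
def IsArc (C : Finset ℝ) (α : ℝ × ℝ) : Prop :=
  α.1 ∈ C ∧ α.2 ∈ C ∧ α.1 < α.2 ∧ (∃ i, X.lo i ≤ α.1 ∧ α.2 ≤ X.hi i) ∧
    ∀ c ∈ C, ¬ (α.1 < c ∧ c < α.2)

/-- `β` is the image of `α` under a word -/
def Tr (t : ℝ) (γ : List (J × Bool)) (α β : ℝ × ℝ) : Prop :=
  X.Valid (X.OK t) γ (α.1, true) ∧ X.Valid (X.OK t) γ (α.2, true) ∧
    ((X.run γ (α.1, true) = (β.1, true) ∧ X.run γ (α.2, true) = (β.2, true)) ∨
      (X.run γ (α.1, true) = (β.2, false) ∧ X.run γ (α.2, true) = (β.1, false)))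

theorem Tr.refl (t : ℝ) (α : ℝ × ℝ) : X.Tr t [] α α := ⟨trivial, trivial, Or.inl ⟨rfl, rfl⟩⟩

theorem Tr.snoc {t : ℝ} {γ : List (J × Bool)} {α β δ : ℝ × ℝ} {σ : J × Bool}
    (h : X.Tr t γ α β) (h' : X.Tr t [σ] β δ) : X.Tr t (γ ++ [σ]) α δ := by
  obtain ⟨h1, h2, h3⟩ := h
  obtain ⟨⟨k1, -⟩, ⟨k2, -⟩, k3⟩ := h'
  simp only [run] at k3
  have e1 : X.mv σ (β.1, false) = ((X.mv σ (β.1, true)).1, !(X.mv σ (β.1, true)).2) := by
    simp [mv]
  have e2 : X.mv σ (β.2, false) = ((X.mv σ (β.2, true)).1, !(X.mv σ (β.2, true)).2) := by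
    simp [mv]
  refine ⟨?_, ?_, ?_⟩
  · rw [X.valid_append]
    refine ⟨h1, ?_, trivial⟩
    rcases h3 with h3 | h3 <;> rw [h3.1]
    · exact k1
    · exact X.OK_dir _ _ _ _ _ k2
  · rw [X.valid_append]
    refine ⟨h2, ?_, trivial⟩
    rcases h3 with h3 | h3 <;> rw [h3.2]
    · exact k2
    · exact X.OK_dir _ _ _ _ _ k1
  · rw [X.run_append, X.run_append]
    simp only [run]
    rcases h3 with h3 | h3 <;> rw [h3.1, h3.2]
    · exact k3
    · rw [e1, e2]
      rcases k3 with k3 | k3 <;> rw [k3.1, k3.2]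
      · right; exact ⟨rfl, rfl⟩
      · left; exact ⟨rfl, rfl⟩

theorem Tr.len {t : ℝ} {γ : List (J × Bool)} {α β : ℝ × ℝ} (h : X.Tr t γ α β) :
    α.2 - α.1 = β.2 - β.1 := by
  obtain ⟨-, -, h3⟩ := h
  have e : (α.2, true) = sh (α.2 - α.1) (α.1, true) := by simp [sh]
  rw [e, X.run_sh] at h3
  rcases h3 with ⟨h3, h4⟩ | ⟨h3, h4⟩ <;> rw [h3] at h4 <;> simp [sh] at h4 <;> linarith

/-- the image of an arc under a deep step is an arc -/
theorem arc_image (hX : X.Good) {t : ℝ} (ht : 0 < t) {C : Finset ℝ} (hC : X.Inv t C)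
    {α : ℝ × ℝ} (hα : X.IsArc C α) (σ : J × Bool) (h1 : X.dl σ + t ≤ α.1)
    (h2 : α.2 ≤ X.dl σ + X.l σ.1 - t) :
    ∃ β, X.IsArc C β ∧ X.Tr t [σ] α β ∧ X.Tr t [inv σ] β α := by
  obtain ⟨a1, a2, a3, a4, a5⟩ := hα
  have hok : ∀ y d, α.1 ≤ y → y ≤ α.2 → X.OK t σ (y, d) := by
    intro y d hy1 hy2
    rw [X.OK_iff]
    constructor <;> linarith
  have hdom := hX.dom (inv σ)
  -- no point of C strictly between the images
  have hno : ∀ c ∈ C, ¬ (min (X.mvx σ α.1) (X.mvx σ α.2) < c ∧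
      c < max (X.mvx σ α.1) (X.mvx σ α.2)) := by
    rintro c hc ⟨h3, h4⟩
    have h5 : α.1 < X.mvx (inv σ) c ∧ X.mvx (inv σ) c < α.2 := by
      unfold mvx at h3 h4 ⊢
      simp only [inv_inv, inv_fst] at h3 h4 ⊢
      split_ifs at h3 h4 ⊢
      · rw [min_eq_right (by linarith)] at h3
        rw [max_eq_left (by linarith)] at h4
        constructor <;> linarith
      · rw [min_eq_left (by linarith)] at h3
        rw [max_eq_right (by linarith)] at h4
        constructor <;> linarith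
    refine a5 _ (hC c hc (inv σ) true ?_) h5
    have h6 := hok (X.mvx (inv σ) c) true h5.1.le h5.2.le
    rw [← X.OK_mv] at h6
    have h7 : X.mv σ (X.mvx (inv σ) c, true) = (c, (X.mv σ (X.mvx (inv σ) c, true)).2) := by
      have := X.mvx_inv (inv σ) c
      rw [inv_inv] at this
      simp only [mv, this]
    rw [h7] at h6
    exact X.OK_dir _ _ _ _ _ h6
  have hm1 : X.mvx σ α.1 ∈ C := hC _ a1 σ true (hok _ _ le_rfl a3.le)
  have hm2 : X.mvx σ α.2 ∈ C := hC _ a2 σ true (hok _ _ a3.le le_rfl)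
  have hi1 := X.mvx_inv σ α.1
  have hi2 := X.mvx_inv σ α.2
  have hk1 := (X.OK_mv t σ (α.1, true)).2 (hok _ _ le_rfl a3.le)
  have hk2 := (X.OK_mv t σ (α.2, true)).2 (hok _ _ a3.le le_rfl)
  cases hfl : X.fl σ.1
  · refine ⟨(X.mvx σ α.1, X.mvx σ α.2), ⟨hm1, hm2, ?_, ⟨X.dc (inv σ), ?_, ?_⟩, ?_⟩,
      ⟨⟨hok _ _ le_rfl a3.le, trivial⟩, ⟨hok _ _ a3.le le_rfl, trivial⟩, Or.inl ?_⟩,
      ⟨⟨?_, trivial⟩, ⟨?_, trivial⟩, Or.inl ?_⟩⟩
    · simp [mvx, hfl]; linarith
    · simp only [mvx, hfl, Bool.false_eq_true, if_false]; linarith [hdom.1]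
    · simp only [mvx, hfl, Bool.false_eq_true, if_false]
      have := hdom.2
      rw [inv_fst] at this
      linarith
    · have hlt : X.mvx σ α.1 < X.mvx σ α.2 := by simp [mvx, hfl]; linarith
      rw [min_eq_left hlt.le, max_eq_right hlt.le] at hno
      exact hno
    · simp [run, mv, hfl]
    · exact X.OK_dir _ _ _ _ _ hk1
    · exact X.OK_dir _ _ _ _ _ hk2
    · simp [run, mv, hfl, hi1, hi2]
  · refine ⟨(X.mvx σ α.2, X.mvx σ α.1), ⟨hm2, hm1, ?_, ⟨X.dc (inv σ), ?_, ?_⟩, ?_⟩,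
      ⟨⟨hok _ _ le_rfl a3.le, trivial⟩, ⟨hok _ _ a3.le le_rfl, trivial⟩, Or.inr ?_⟩,
      ⟨⟨?_, trivial⟩, ⟨?_, trivial⟩, Or.inr ?_⟩⟩
    · simp [mvx, hfl]; linarith
    · simp only [mvx, hfl, if_true]; linarith [hdom.1]
    · simp only [mvx, hfl, if_true]
      have := hdom.2
      rw [inv_fst] at this
      linarith
    · have hlt : X.mvx σ α.2 < X.mvx σ α.1 := by simp [mvx, hfl]; linarith
      rw [min_eq_right hlt.le, max_eq_left hlt.le] at hno
      exact hno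
    · simp [run, mv, hfl]
    · exact X.OK_dir _ _ _ _ _ hk2
    · exact X.OK_dir _ _ _ _ _ hk1
    · simp [run, mv, hfl, hi1, hi2]

/-- Two transports with the same end agree, and their quotient is trivial. -/
theorem tr_coh {Γ : Type} [Group Γ] {ρ : FreeGroup J →* Γ} (hρ : X.Arc ρ) {t : ℝ} (ht : 0 < t)
    {γ δ : List (J × Bool)} {α β : ℝ × ℝ} (hα : α.1 < α.2) (h1 : X.Tr t γ α β)
    (h2 : X.Tr t δ α β) :
    X.run γ (α.1, true) = X.run δ (α.1, true) ∧ X.run γ (α.2, true) = X.run δ (α.2, true) ∧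
      ρ (lab (γ ++ rev δ)) = 1 ∧
      X.Valid (X.OK t) (γ ++ rev δ) (α.1, true) ∧ X.Valid (X.OK t) (γ ++ rev δ) (α.2, true) ∧
      X.run (γ ++ rev δ) (α.1, true) = (α.1, true) := by
  set ℓ := α.2 - α.1 with hℓ
  have hℓ0 : 0 < ℓ := by linarith
  have e : (α.2, true) = sh ℓ (α.1, true) := by simp [sh, hℓ]
  have hlen := Tr.len X h1
  set m : ℝ × Bool := sh (ℓ / 2) (α.1, true) with hm
  have hv1 : X.Valid (X.OK t) γ m :=
    X.valid_sh_mono ℓ _ (by linarith) (by linarith) _ _ h1.1 (by rw [← e]; exact h1.2.1)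
  have hv2 : X.Valid (X.OK t) δ m :=
    X.valid_sh_mono ℓ _ (by linarith) (by linarith) _ _ h2.1 (by rw [← e]; exact h2.2.1)
  have hm' : m = (α.1 + ℓ / 2, true) := by simp [hm, sh]
  have hmid : ∀ η : List (J × Bool), X.Tr t η α β → (X.run η m).1 = β.1 + ℓ / 2 := by
    intro η hη
    rw [hm, X.run_sh]
    rcases hη.2.2 with h | h <;> rw [h.1] <;> simp [sh]
    linarith
  have hx : (X.run γ m).1 = (X.run δ m).1 := by rw [hmid γ h1, hmid δ h2]
  have hrv : X.Valid (X.OK t) (rev δ) (X.run δ m) :=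
    X.valid_rev (fun σ s hs => (X.OK_mv t σ s).2 hs) _ _ hv2
  have hval : X.Valid (X.OK t) (γ ++ rev δ) m := by
    rw [X.valid_append]
    refine ⟨hv1, ?_⟩
    have : X.run γ m = ((X.run δ m).1, (X.run γ m).2) := by rw [← hx]
    rw [this]
    exact X.valid_OK_dir _ _ _ (X.run δ m).2 _ hrv
  have hret : (X.run (γ ++ rev δ) m).1 = m.1 := by
    rw [X.run_append]
    have : X.run γ m = ((X.run δ m).1, (X.run γ m).2) := by rw [← hx]
    rw [this, X.run_fst (rev δ) _ _ (X.run δ m).2]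
    have h3 : ((X.run δ m).1, (X.run δ m).2) = X.run δ m := rfl
    rw [h3, X.run_rev]
  rw [hm'] at hval hret
  obtain ⟨hdir, hone⟩ := hρ t ht _ _ hval hret
  -- directions agree
  have hd : (X.run γ (α.1, true)).2 = (X.run δ (α.1, true)).2 := by
    by_contra hne
    have h4 : (X.run (γ ++ rev δ) (α.1 + ℓ / 2, true)).2 = false := by
      rw [X.run_append]
      have h5 : (X.run γ (α.1 + ℓ / 2, true)) = ((X.run δ m).1, !(X.run δ m).2) := by
        rw [← hm', Prod.ext_iff]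
        refine ⟨hx, ?_⟩
        rw [hm', X.run_snd γ _ α.1 true, X.run_snd δ _ α.1 true]
        revert hne
        cases (X.run γ (α.1, true)).2 <;> cases (X.run δ (α.1, true)).2 <;> simp
      rw [h5, X.run_not]
      have h3 : ((X.run δ m).1, (X.run δ m).2) = X.run δ m := rfl
      rw [h3, X.run_rev, hm']
      rfl
    rw [h4] at hdir
    exact absurd hdir (by simp)
  have hs1 : X.run γ (α.1, true) = X.run δ (α.1, true) := by
    rcases h1.2.2 with h | h <;> rcases h2.2.2 with h' | h' <;> rw [h.1, h'.1] at hd ⊢ <;>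
      simp at hd
  have hs2 : X.run γ (α.2, true) = X.run δ (α.2, true) := by
    rw [e, X.run_sh, X.run_sh, hs1]
  refine ⟨hs1, hs2, hone, ?_, ?_, ?_⟩
  · rw [X.valid_append]
    refine ⟨h1.1, ?_⟩
    rw [hs1]
    exact X.valid_rev (fun σ s hs => (X.OK_mv t σ s).2 hs) _ _ h2.1
  · rw [X.valid_append]
    refine ⟨h1.2.1, ?_⟩
    rw [hs2]
    exact X.valid_rev (fun σ s hs => (X.OK_mv t σ s).2 hs) _ _ h2.2.1
  · rw [X.run_append, hs1, X.run_rev]

end Sys

end Pool.Agent.FrZ
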