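import Pool.Agent.Lib.MP_305fdd_al.Fr.Z.Real

/-!
# The arc decomposition of a real system: existence
-/

set_option autoImplicit false
set_option linter.unusedSectionVars false
set_option linter.unusedVariables false
set_option linter.unnecessarySeqFocus false

namespace Pool.Agent.FrZ

variable {J I : Type}

namespace Sys

variable (X : Sys J I ℝ)

theorem Tr.step_symm {t : ℝ} {α β : ℝ × ℝ} {σ : J × Bool} (h : X.Tr t [σ] α β) :
    X.Tr t [inv σ] β α := by
  obtain ⟨⟨h1, -⟩, ⟨h2, -⟩, h3⟩ := h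
  simp only [run] at h3
  have k1 := (X.OK_mv t σ (α.1, true)).2 h1
  have k2 := (X.OK_mv t σ (α.2, true)).2 h2
  have m1 := X.mv_inv σ (α.1, true)
  have m2 := X.mv_inv σ (α.2, true)
  have fl : ∀ x d, X.mv (inv σ) (x, !d) = ((X.mv (inv σ) (x, d)).1, !(X.mv (inv σ) (x, d)).2) := by
    intro x d
    simp only [mv]
    cases d <;> cases X.fl (inv σ).1 <;> simp
  rcases h3 with ⟨e1, e2⟩ | ⟨e1, e2⟩ <;> rw [e1] at k1 m1 <;> rw [e2] at k2 m2
  · refine ⟨⟨k1, trivial⟩, ⟨k2, trivial⟩, Or.inl ⟨?_, ?_⟩⟩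
    · simpa only [run] using m1
    · simpa only [run] using m2
  · have f1 := fl β.1 false
    have f2 := fl β.2 false
    rw [m2] at f1
    rw [m1] at f2
    refine ⟨⟨X.OK_dir _ _ _ _ _ k2, trivial⟩, ⟨X.OK_dir _ _ _ _ _ k1, trivial⟩, Or.inr ⟨?_, ?_⟩⟩
    · simpa only [run, Bool.not_false, Bool.not_true] using f1
    · simpa only [run, Bool.not_false, Bool.not_true] using f2

/-- the words which fix an arc of `C` and are trivial -/
def NN {Γ : Type} [Group Γ] (ρ : FreeGroup J →* Γ) (t : ℝ) (C : Finset ℝ) : Set (FreeGroup J) :=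
  {g | ρ g = 1 ∧ ∃ γ α, X.IsArc C α ∧ lab γ = g ∧ X.Valid (X.OK t) γ (α.1, true) ∧
    X.Valid (X.OK t) γ (α.2, true) ∧ X.run γ (α.1, true) = (α.1, true)}

theorem exists_AD {Γ : Type} [Group Γ] {ρ : FreeGroup J →* Γ} (hX : X.Good) (hρ : X.Arc ρ) {t : ℝ}
    (ht : 0 < t) {C : Finset ℝ} (hC : X.Inv t C) (hlo : ∀ i, X.lo i ∈ C) (hhi : ∀ i, X.hi i ∈ C)
    (hd1 : ∀ σ, X.dl σ + t ∈ C) (hd2 : ∀ σ, X.dl σ + X.l σ.1 - t ∈ C) :
    ∃ A : AD X t (X.NN ρ t C) {α : ℝ × ℝ // X.IsArc C α}, ∀ α, A.p α = α.1.1 ∧ A.q α = α.1.2 := by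
  classical
  let ι := {α : ℝ × ℝ // X.IsArc C α}
  let Adj : ι → ι → Prop := fun α β => ∃ σ, X.Tr t [σ] α.1 β.1
  have hsymm : ∀ α β, Adj α β → Adj β α := by
    rintro α β ⟨σ, h⟩
    exact ⟨inv σ, Tr.step_symm X h⟩
  have hsymm' : ∀ α β, Relation.ReflTransGen Adj α β → Relation.ReflTransGen Adj β α := by
    intro α β h
    induction h with
    | refl => exact Relation.ReflTransGen.refl
    | tail _ h ih => exact (Relation.ReflTransGen.single (hsymm _ _ h)).trans ih
  have hequiv : Equivalence (Relation.ReflTransGen Adj) :=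
    ⟨fun _ => Relation.ReflTransGen.refl, fun h => hsymm' _ _ h, fun h h' => h.trans h'⟩
  let S : Setoid ι := ⟨Relation.ReflTransGen Adj, hequiv⟩
  let rep : ι → ι := fun α => Quotient.out (Quotient.mk S α)
  have hrel : ∀ α, Relation.ReflTransGen Adj (rep α) α := fun α =>
    Quotient.exact (s := S) (Quotient.out_eq (Quotient.mk S α))
  have hrr : ∀ α, rep (rep α) = rep α := by
    intro α
    change Quotient.out (Quotient.mk S (Quotient.out (Quotient.mk S α))) = _
    rw [Quotient.out_eq]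
  have htr : ∀ α, ∃ γ, X.Tr t γ (rep α).1 α.1 := by
    intro α
    have h := hrel α
    generalize rep α = β at h
    induction h with
    | refl => exact ⟨[], Tr.refl X t _⟩
    | tail _ h ih =>
      obtain ⟨γ, hγ⟩ := ih
      obtain ⟨σ, hσ⟩ := h
      exact ⟨γ ++ [σ], Tr.snoc X hγ hσ⟩
  let w : ι → List (J × Bool) := fun α => if α = rep α then [] else (htr α).choose
  have hw : ∀ α, X.Tr t (w α) (rep α).1 α.1 := by
    intro α
    simp only [w]
    split_ifs with h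
    · rw [← h]; exact Tr.refl X t _
    · exact (htr α).choose_spec
  refine ⟨{ p := fun α => α.1.1, q := fun α => α.1.2, rep := rep, w := w, lt := fun α => α.2.2.2.1,
            rep_rep := hrr, w_rep := ?_, w_p := fun α => (hw α).1, w_q := fun α => (hw α).2.1,
            len := fun α => Tr.len X (hw α), s_eq := ?_, comp := fun α => α.2.2.2.2.1,
            cover := ?_, uniq := ?_, step := ?_, deep := ?_ }, fun α => ⟨rfl, rfl⟩⟩
  · intro α
    simp only [w]
    rw [if_pos (hrr α).symm]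
  · intro α
    rcases (hw α).2.2 with h | h
    · exact Or.inl h.1
    · exact Or.inr h.1
  · intro x i hx1 hx2 hne
    -- the last point of `C` before `x` and the first one after `x`
    have hA : (C.filter (fun c => c < x)).Nonempty := ⟨X.lo i, by simp [hlo i, hx1]⟩
    have hB : (C.filter (fun c => x < c)).Nonempty := ⟨X.hi i, by simp [hhi i, hx2]⟩
    set p := (C.filter (fun c => c < x)).max' hA with hp
    set q := (C.filter (fun c => x < c)).min' hB with hq
    have hpm := Finset.max'_mem _ hA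
    have hqm := Finset.min'_mem _ hB
    rw [← hp, Finset.mem_filter] at hpm
    rw [← hq, Finset.mem_filter] at hqm
    have hpl : X.lo i ≤ p := Finset.le_max' _ _ (by simp [hlo i, hx1])
    have hqh : q ≤ X.hi i := Finset.min'_le _ _ (by simp [hhi i, hx2])
    have hp' : ∀ c ∈ C, c < x → c ≤ p := fun c hc h => Finset.le_max' _ _ (by simp [hc, h])
    have hq' : ∀ c ∈ C, x < c → q ≤ c := fun c hc h => Finset.min'_le _ _ (by simp [hc, h])
    have hxC : x ∉ C := by
      intro hxC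
      have harc : X.IsArc C (p, x) :=
        ⟨hpm.1, hxC, hpm.2, ⟨i, hpl, hx2.le⟩, fun c hc h => absurd (hp' c hc h.2) (not_le.2 h.1)⟩
      exact (hne ⟨(p, x), harc⟩).2 rfl
    refine ⟨⟨(p, q), ⟨hpm.1, hqm.1, hpm.2.trans hqm.2, ⟨i, hpl, hqh⟩, ?_⟩⟩, hpm.2, hqm.2⟩
    rintro c hc ⟨h1, h2⟩
    rcases lt_trichotomy c x with h | h | h
    · exact absurd (hp' c hc h) (not_le.2 h1)
    · exact hxC (h ▸ hc)
    · exact absurd (hq' c hc h) (not_le.2 h2)
  · rintro ⟨α, hα⟩ ⟨β, hβ⟩ x h1 h2 h3 h4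
    simp only at h1 h2 h3 h4
    have e1 : α.1 = β.1 := by
      rcases lt_trichotomy α.1 β.1 with h | h | h
      · exact absurd ⟨h, h3.trans h2⟩ (hα.2.2.2.2 _ hβ.1)
      · exact h
      · exact absurd ⟨h, h1.trans h4⟩ (hβ.2.2.2.2 _ hα.1)
    have e2 : α.2 = β.2 := by
      rcases lt_trichotomy α.2 β.2 with h | h | h
      · exact absurd ⟨h3.trans h2, h⟩ (hβ.2.2.2.2 _ hα.2.1)
      · exact h
      · exact absurd ⟨h1.trans h4, h⟩ (hα.2.2.2.2 _ hβ.2.1)
    exact Subtype.ext (Prod.ext e1 e2)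
  · rintro ⟨α, hα⟩ σ
    simp only
    have h1 := hα.2.2.2.2 _ (hd1 σ)
    have h2 := hα.2.2.2.2 _ (hd2 σ)
    rw [not_and_or, not_lt, not_lt] at h1 h2
    rcases h1 with h1 | h1
    · rcases h2 with h2 | h2
      · exact Or.inr (Or.inr h2)
      · exact Or.inl ⟨h1, h2⟩
    · exact Or.inr (Or.inl h1)
  · rintro α σ h1 h2
    obtain ⟨β, hβ, hT, -⟩ := X.arc_image hX ht hC α.2 σ h1 h2
    have hrep : rep ⟨β, hβ⟩ = rep α := by
      have : Quotient.mk S ⟨β, hβ⟩ = Quotient.mk S α := by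
        apply Quotient.sound
        exact hequiv.symm (Relation.ReflTransGen.single ⟨σ, hT⟩)
      simp only [rep, this]
    refine ⟨⟨β, hβ⟩, hrep, ?_⟩
    have hT1 : X.Tr t (w α ++ [σ]) (rep α).1 β := Tr.snoc X (hw α) hT
    have hT2 : X.Tr t (w ⟨β, hβ⟩) (rep α).1 β := by
      have := hw ⟨β, hβ⟩
      rwa [hrep] at this
    obtain ⟨c1, c2, c3, c4, c5, c6⟩ := X.tr_coh hρ ht (rep α).2.2.2.1 hT1 hT2
    have hl : (lab (w ⟨β, hβ⟩))⁻¹ * sg σ * lab (w α)
        = lab ((w α ++ [σ]) ++ rev (w ⟨β, hβ⟩)) := by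
      rw [lab_append, lab_append, lab_rev]
      simp [lab, mul_assoc]
    refine ⟨?_, ?_⟩
    · simp only [hrep]
      rw [← c1, X.run_append]
      rfl
    · rw [hl]
      exact ⟨c3, _, (rep α).1, (rep α).2, rfl, c4, c5, c6⟩

end Sys

end Pool.Agent.FrZ
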