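import Pool.Agent.Lib.MP_305fdd_al.Fr.Z.RealAD

/-!
# Telescoping over consecutive points; small arcs and their midpoints
-/

set_option autoImplicit false
set_option linter.unusedSectionVars false
set_option linter.unusedVariables false
set_option linter.unnecessarySeqFocus false

open Finset

namespace Pool.Agent.FrZ

variable {J I : Type}

open Classical in
theorem tel (C : Finset ℝ) (y : ℝ) (hy : y ∈ C) : ∀ (n : ℕ) (x : ℝ), x ∈ C → x ≤ y →
    (C.filter (fun c => x < c ∧ c ≤ y)).card = n →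
    ∑ b ∈ (C ×ˢ C).filter (fun b : ℝ × ℝ => (b.1 < b.2 ∧ ∀ c ∈ C, ¬ (b.1 < c ∧ c < b.2)) ∧
      x ≤ b.1 ∧ b.2 ≤ y), (b.2 - b.1) = y - x := by
  intro n
  induction n with
  | zero =>
    intro x hx hxy hc
    rw [card_eq_zero] at hc
    have hxy' : x = y := by
      rcases hxy.lt_or_eq with h | h
      · have : y ∈ C.filter (fun c => x < c ∧ c ≤ y) := by simp [hy, h]
        rw [hc] at this
        simp at this
      · exact h
    subst hxy'
    rw [sub_self]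
    apply sum_eq_zero
    intro b hb
    rw [mem_filter] at hb
    exfalso
    linarith [hb.2.1.1, hb.2.2.1, hb.2.2.2]
  | succ n ih =>
    intro x hx hxy hc
    have hne : (C.filter (fun c => x < c ∧ c ≤ y)).Nonempty := by
      rw [← card_pos, hc]; omega
    set v := (C.filter (fun c => x < c ∧ c ≤ y)).min' hne with hv
    have hvm := min'_mem _ hne
    rw [← hv, mem_filter] at hvm
    obtain ⟨hvC, hxv, hvy⟩ := hvm
    have hmin : ∀ c ∈ C, x < c → c ≤ y → v ≤ c := fun c h1 h2 h3 =>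
      min'_le _ _ (by simp [h1, h2, h3])
    have hcard : (C.filter (fun c => v < c ∧ c ≤ y)).card = n := by
      have : C.filter (fun c => x < c ∧ c ≤ y)
          = insert v (C.filter (fun c => v < c ∧ c ≤ y)) := by
        ext c
        simp only [mem_filter, mem_insert]
        constructor
        · rintro ⟨h1, h2, h3⟩
          rcases (hmin c h1 h2 h3).lt_or_eq with h | h
          · exact Or.inr ⟨h1, h, h3⟩
          · exact Or.inl h.symm
        · rintro (rfl | ⟨h1, h2, h3⟩)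
          · exact ⟨hvC, hxv, hvy⟩
          · exact ⟨h1, hxv.trans h2, h3⟩
      rw [this, card_insert_of_notMem (by simp)] at hc
      omega
    have hrec := ih v hvC hvy hcard
    have hset : (C ×ˢ C).filter (fun b : ℝ × ℝ => (b.1 < b.2 ∧ ∀ c ∈ C, ¬ (b.1 < c ∧ c < b.2)) ∧
        x ≤ b.1 ∧ b.2 ≤ y)
        = insert (x, v) ((C ×ˢ C).filter
          (fun b : ℝ × ℝ => (b.1 < b.2 ∧ ∀ c ∈ C, ¬ (b.1 < c ∧ c < b.2)) ∧ v ≤ b.1 ∧ b.2 ≤ y)) := by
      ext b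
      simp only [mem_filter, mem_insert, mem_product]
      constructor
      · rintro ⟨⟨h1, h2⟩, ⟨h3, h4⟩, h5, h6⟩
        rcases h5.lt_or_eq with h | h
        · exact Or.inr ⟨⟨h1, h2⟩, ⟨h3, h4⟩, hmin _ h1 h (h3.le.trans h6), h6⟩
        · left
          have h7 : v ≤ b.2 := hmin _ h2 (h ▸ h3) h6
          have h8 : ¬ v < b.2 := fun h9 => h4 v hvC ⟨h ▸ hxv, h9⟩
          exact Prod.ext h.symm (le_antisymm (not_lt.1 h8) h7)
      · rintro (rfl | ⟨⟨h1, h2⟩, ⟨h3, h4⟩, h5, h6⟩)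
        · refine ⟨⟨hx, hvC⟩, ⟨hxv, ?_⟩, le_rfl, hvy⟩
          rintro c hc ⟨h1, h2⟩
          exact absurd (hmin c hc h1 (h2.le.trans hvy)) (not_le.2 h2)
        · exact ⟨⟨h1, h2⟩, ⟨h3, h4⟩, hxv.le.trans h5, h6⟩
    rw [hset, sum_insert, hrec]
    · ring
    · simp only [mem_filter, not_and]
      intro _ _ h
      exact absurd h (not_le.2 hxv)

namespace Sys

variable (X : Sys J I ℝ)

open Classical in
/-- the small arcs -/
noncomputable def SA (C : Finset ℝ) : Finset (ℝ × ℝ) := (C ×ˢ C).filter (X.IsArc C)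

theorem mem_SA {C : Finset ℝ} {b : ℝ × ℝ} : b ∈ X.SA C ↔ X.IsArc C b := by
  classical
  simp only [SA, mem_filter, mem_product, and_iff_right_iff_imp]
  exact fun h => ⟨h.1, h.2.1⟩

open Classical in
theorem tel_SA {C : Finset ℝ} {x y : ℝ} (hx : x ∈ C) (hy : y ∈ C) (hxy : x ≤ y) (i : I)
    (h1 : X.lo i ≤ x) (h2 : y ≤ X.hi i) :
    ∑ b ∈ (X.SA C).filter (fun b => x ≤ b.1 ∧ b.2 ≤ y), (b.2 - b.1) = y - x := by
  rw [← tel C y hy _ x hx hxy rfl]
  refine sum_congr ?_ fun _ _ => rfl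
  ext b
  simp only [mem_filter, mem_SA, IsArc, mem_product]
  constructor
  · rintro ⟨⟨a1, a2, a3, a4, a5⟩, a6, a7⟩
    exact ⟨⟨a1, a2⟩, ⟨a3, a5⟩, a6, a7⟩
  · rintro ⟨⟨a1, a2⟩, ⟨a3, a5⟩, a6, a7⟩
    exact ⟨⟨a1, a2, a3, ⟨i, h1.trans a6, a7.trans h2⟩, a5⟩, a6, a7⟩

theorem arc_uniq {C : Finset ℝ} {α β : ℝ × ℝ} (hα : X.IsArc C α) (hβ : X.IsArc C β) {x : ℝ}
    (h1 : α.1 < x) (h2 : x < α.2) (h3 : β.1 < x) (h4 : x < β.2) : α = β := by
  have e1 : α.1 = β.1 := by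
    rcases lt_trichotomy α.1 β.1 with h | h | h
    · exact absurd ⟨h, h3.trans h2⟩ (hα.2.2.2.2 _ hβ.1)
    · exact h
    · exact absurd ⟨h, h1.trans h4⟩ (hβ.2.2.2.2 _ hα.1)
  have e2 : α.2 = β.2 := by
    rcases lt_trichotomy α.2 β.2 with h | h | h
    · exact absurd ⟨h3.trans h2, h⟩ (hβ.2.2.2.2 _ hα.2.1)
    · exact h
    · exact absurd ⟨h1.trans h4, h⟩ (hα.2.2.2.2 _ hβ.2.1)
  exact Prod.ext e1 e2

/-- midpoint -/
noncomputable def mid (b : ℝ × ℝ) : ℝ := (b.1 + b.2) / 2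

theorem mid_inj {C : Finset ℝ} {α β : ℝ × ℝ} (hα : X.IsArc C α) (hβ : X.IsArc C β)
    (h : mid α = mid β) : α = β := by
  have h1 := hα.2.2.1
  have h2 := hβ.2.2.1
  refine X.arc_uniq hα hβ (x := mid α) ?_ ?_ ?_ ?_
  · unfold mid; linarith
  · unfold mid; linarith
  · rw [h]; unfold mid; linarith
  · rw [h]; unfold mid; linarith

open Classical in
/-- the length of the small arc with midpoint `x` -/
noncomputable def mu (C : Finset ℝ) (x : ℝ) : ℝ :=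
  if h : ∃ b, X.IsArc C b ∧ mid b = x then h.choose.2 - h.choose.1 else 0

theorem mu_mid {C : Finset ℝ} {b : ℝ × ℝ} (hb : X.IsArc C b) : X.mu C (mid b) = b.2 - b.1 := by
  have h : ∃ b', X.IsArc C b' ∧ mid b' = mid b := ⟨b, hb, rfl⟩
  unfold mu
  rw [dif_pos h, X.mid_inj h.choose_spec.1 hb h.choose_spec.2]

theorem mu_nonneg (C : Finset ℝ) (x : ℝ) : 0 ≤ X.mu C x := by
  unfold mu
  split_ifs with h
  · have := h.choose_spec.1.2.2.1
    linarith
  · exact le_rfl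

/-- steps of depth `≥ s` send midpoints to midpoints, with the same length -/
theorem step_mid (hX : X.Good) {s : ℝ} (hs : 0 < s) {C : Finset ℝ} (hC : X.Inv s C)
    (h1 : ∀ σ, X.dl σ + s ∈ C) (h2 : ∀ σ, X.dl σ + X.l σ.1 - s ∈ C) {b : ℝ × ℝ}
    (hb : X.IsArc C b) {σ : J × Bool} {d : Bool} (hok : X.OK s σ (mid b, d)) :
    ∃ b', X.IsArc C b' ∧ mid b' = X.mvx σ (mid b) ∧ b'.2 - b'.1 = b.2 - b.1 := by
  have hlt := hb.2.2.1
  rw [X.OK_iff] at hok
  have hm1 : b.1 < mid b := by unfold mid; linarith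
  have hm2 : mid b < b.2 := by unfold mid; linarith
  have k1 : X.dl σ + s ≤ b.1 := by
    by_contra h
    push Not at h
    rcases hok.1.lt_or_eq with h' | h'
    · exact hb.2.2.2.2 _ (h1 σ) ⟨h, h'.trans hm2⟩
    · exact hb.2.2.2.2 _ (h1 σ) ⟨h, h' ▸ hm2⟩
  have k2 : b.2 ≤ X.dl σ + X.l σ.1 - s := by
    by_contra h
    push Not at h
    have h' : mid b ≤ X.dl σ + X.l σ.1 - s := by linarith [hok.2]
    exact hb.2.2.2.2 _ (h2 σ) ⟨hm1.trans_le h', h⟩
  obtain ⟨b', hb', hT, -⟩ := X.arc_image hX hs hC hb σ k1 k2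
  refine ⟨b', hb', ?_, (Tr.len X hT).symm⟩
  obtain ⟨-, -, h3⟩ := hT
  simp only [run, mv, Prod.mk.injEq] at h3
  unfold mid
  rcases h3 with ⟨⟨e1, f1⟩, ⟨e2, f2⟩⟩ | ⟨⟨e1, f1⟩, ⟨e2, f2⟩⟩ <;> rw [← e1, ← e2] <;> unfold mvx <;>
    cases hfl : X.fl σ.1 <;> simp [hfl] at f1 f2 ⊢ <;> ring

theorem run_mid (hX : X.Good) {s : ℝ} (hs : 0 < s) {C : Finset ℝ} (hC : X.Inv s C)
    (h1 : ∀ σ, X.dl σ + s ∈ C) (h2 : ∀ σ, X.dl σ + X.l σ.1 - s ∈ C) (γ : List (J × Bool))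
    (d : Bool) {b : ℝ × ℝ} (hb : X.IsArc C b) (hv : X.Valid (X.OK s) γ (mid b, d)) :
    ∃ b', X.IsArc C b' ∧ mid b' = (X.run γ (mid b, d)).1 ∧ b'.2 - b'.1 = b.2 - b.1 := by
  induction γ generalizing b d with
  | nil => exact ⟨b, hb, rfl, rfl⟩
  | cons σ γ ih =>
    obtain ⟨b', hb', e1, e2⟩ := X.step_mid hX hs hC h1 h2 hb hv.1
    have hv' := hv.2
    have e3 : X.mv σ (mid b, d) = (mid b', (X.mv σ (mid b, d)).2) := by rw [e1]; rfl
    rw [e3] at hv'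
    obtain ⟨b'', hb'', e4, e5⟩ := ih _ hb' hv'
    refine ⟨b'', hb'', ?_, e5.trans e2⟩
    rw [e4]
    simp only [run]
    rw [e3]

theorem Arc.dir {Γ : Type} [Group Γ] {ρ : FreeGroup J →* Γ} (hρ : X.Arc ρ) {ε : ℝ} (hε : 0 < ε)
    (γ : List (J × Bool)) (x : ℝ) (d : Bool) (hv : X.Valid (X.OK ε) γ (x, d))
    (hr : (X.run γ (x, d)).1 = x) : X.run γ (x, d) = (x, d) ∧ ρ (lab γ) = 1 := by
  have h := hρ ε hε γ x (X.valid_OK_dir _ _ _ _ true hv) (by rw [X.run_fst γ x true d]; exact hr)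
  refine ⟨Prod.ext hr ?_, h.2⟩
  cases d
  · have := X.run_not γ x true
    rw [h.1] at this
    exact this
  · exact h.1

end Sys

end Pool.Agent.FrZ
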